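import Pool.Agent.Lib.TAO.Basic
import Mathlib

/-!
# PROJECT ALL, block Z: `p`-coordinates compute the values over extensions of degree `< p`
-/

set_option autoImplicit false

namespace Pool.Agent.ALL44

open Pool.Agent.TAO (OVal VPos)

universe u w

/-! ### Residue fields -/

/-- `p`-independence is preserved by separable extensions. -/
theorem frob_sep {κ 𝕜 : Type*} [Field κ] [Field 𝕜] [Algebra κ 𝕜] (p : ℕ) [hp : Fact p.Prime]
    [CharP κ p] {ι : Type*} [Fintype ι] (b : ι → κ)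
    (hb : ∀ c : ι → κ, ∑ i, b i * c i ^ p = 0 → ∀ i, c i = 0)
    (c : ι → 𝕜) (hc : ∀ i, IsSeparable κ (c i))
    (h0 : ∑ i, algebraMap κ 𝕜 (b i) * c i ^ p = 0) : ∀ i, c i = 0 := by
  classical
  let E : IntermediateField κ 𝕜 := IntermediateField.adjoin κ (Set.range c)
  have hsep : Algebra.IsSeparable κ E :=
    (IntermediateField.isSeparable_adjoin_iff_isSeparable κ _).2 (by
      rintro _ ⟨i, rfl⟩
      exact hc i)
  have hfd : FiniteDimensional κ E := IntermediateField.finiteDimensional_adjoin fun x hx => by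
    obtain ⟨i, rfl⟩ := hx
    exact (hc i).isIntegral
  have hE : CharP E p := charP_of_injective_algebraMap (algebraMap κ E).injective p
  have hex : ExpChar κ p := ExpChar.prime hp.out
  have hexE : ExpChar E p := ExpChar.prime hp.out
  let c' : ι → E := fun i => ⟨c i, IntermediateField.subset_adjoin κ _ ⟨i, rfl⟩⟩
  let B := Module.finBasis κ E
  have h1 : ∑ i, algebraMap κ E (b i) * c' i ^ p = 0 := by
    apply (algebraMap E 𝕜).injective
    rw [map_sum, map_zero, ← h0]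
    refine Finset.sum_congr rfl fun i _ => ?_
    rw [map_mul, map_pow]
    rfl
  have h2 : ∀ i, c' i ^ p = ∑ j, (B.repr (c' i) j) ^ p • B j ^ p := by
    intro i
    conv_lhs => rw [← B.sum_repr (c' i)]
    rw [sum_pow_char]
    refine Finset.sum_congr rfl fun j _ => ?_
    rw [smul_pow]
  have h3 : ∑ j, (∑ i, b i * B.repr (c' i) j ^ p) • B j ^ p = 0 := by
    rw [← h1]
    simp_rw [h2, Finset.mul_sum, Finset.sum_smul]
    rw [Finset.sum_comm]
    refine Finset.sum_congr rfl fun i _ => Finset.sum_congr rfl fun j _ => ?_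
    rw [mul_smul, Algebra.smul_def (b i)]
  have hli := B.linearIndependent.map_pow_expChar_pow_of_isSeparable p 1
  simp only [pow_one] at hli
  have h4 := Fintype.linearIndependent_iff.1 hli _ h3
  intro i
  have h5 : B.repr (c' i) = 0 := by
    ext j
    exact hb _ (h4 j) i
  have h6 : c' i = 0 := by simpa using h5
  exact congrArg Subtype.val h6

section Val

variable {𝕂 : Type w} [Field 𝕂] [LinearOrder 𝕂] [IsStrictOrderedRing 𝕂] {Ω : Type u} [Field Ω]

/-- The valuation ring. -/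
def oring (W : OVal 𝕂 Ω) : ValuationSubring Ω where
  carrier := {a | W.Ge 0 a}
  mul_mem' := by
    intro a b ha hb
    have h1 := OVal.Ge.mul ha hb
    rwa [add_zero] at h1
  one_mem' := fun _ => by rw [W.map_one]
  add_mem' := fun ha hb => OVal.Ge.add ha hb
  zero_mem' := OVal.Ge.zero
  neg_mem' := fun ha => OVal.Ge.neg ha
  mem_or_inv_mem' := by
    intro a
    by_cases h0 : a = 0
    · exact Or.inl (by rw [h0]; exact OVal.Ge.zero)
    rcases le_total 0 (W a) with h1 | h1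
    · exact Or.inl fun _ => h1
    · refine Or.inr fun _ => ?_
      rw [W.map_inv h0]
      linarith

theorem mem_oring {W : OVal 𝕂 Ω} {a : Ω} : a ∈ oring W ↔ W.Ge 0 a := Iff.rfl

theorem oring_res_eq_zero {W : OVal 𝕂 Ω} (a : oring W) :
    IsLocalRing.residue (oring W) a = 0 ↔ VPos W (a : Ω) := by
  rw [IsLocalRing.residue_eq_zero_iff, IsLocalRing.mem_maximalIdeal, mem_nonunits_iff]
  constructor
  · intro h h0
    by_contra h1
    apply h
    have hv : W (a : Ω) = 0 := le_antisymm (not_lt.1 h1) (a.2 h0)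
    refine IsUnit.of_mul_eq_one ⟨(a : Ω)⁻¹, ?_⟩ (Subtype.ext (mul_inv_cancel₀ h0))
    intro _
    rw [W.map_inv h0, hv, neg_zero]
  · intro h hu
    obtain ⟨b, hb⟩ := hu.exists_right_inv
    have h1 : (a : Ω) * b = 1 := congrArg Subtype.val hb
    have ha0 : (a : Ω) ≠ 0 := left_ne_zero_of_mul (by rw [h1]; exact one_ne_zero)
    have hb0 : (b : Ω) ≠ 0 := right_ne_zero_of_mul (by rw [h1]; exact one_ne_zero)
    have h2 := W.map_mul ha0 hb0
    rw [h1, W.map_one] at h2
    have h3 := h ha0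
    have h4 : 0 ≤ W (b : Ω) := b.2 hb0
    linarith

/-- The residue field of a subfield. -/
def resF (W : OVal 𝕂 Ω) (F : Subfield Ω) :
    Subfield (IsLocalRing.ResidueField (oring W)) where
  carrier := {z | ∃ a : oring W, (a : Ω) ∈ F ∧ IsLocalRing.residue (oring W) a = z}
  mul_mem' := by
    rintro _ _ ⟨a, ha, rfl⟩ ⟨b, hb, rfl⟩
    exact ⟨a * b, F.mul_mem ha hb, map_mul _ _ _⟩
  one_mem' := ⟨1, F.one_mem, map_one _⟩
  add_mem' := by
    rintro _ _ ⟨a, ha, rfl⟩ ⟨b, hb, rfl⟩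
    exact ⟨a + b, F.add_mem ha hb, map_add _ _ _⟩
  zero_mem' := ⟨0, F.zero_mem, map_zero _⟩
  neg_mem' := by
    rintro _ ⟨a, ha, rfl⟩
    exact ⟨-a, F.neg_mem ha, map_neg _ _⟩
  inv_mem' := by
    rintro _ ⟨a, ha, rfl⟩
    by_cases h0 : IsLocalRing.residue (oring W) a = 0
    · rw [h0, inv_zero]
      exact ⟨0, F.zero_mem, map_zero _⟩
    have h1 : ¬ VPos W (a : Ω) := fun h => h0 ((oring_res_eq_zero a).2 h)
    have ha0 : (a : Ω) ≠ 0 := by
      intro h
      exact h1 (by rw [h]; exact VPos.zero)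
    have hv : W (a : Ω) = 0 := by
      refine le_antisymm (not_lt.1 fun h => h1 fun _ => h) (a.2 ha0)
    refine ⟨⟨(a : Ω)⁻¹, fun _ => by rw [W.map_inv ha0, hv, neg_zero]⟩, F.inv_mem ha, ?_⟩
    refine eq_inv_of_mul_eq_one_left ?_
    rw [← map_mul, ← map_one (IsLocalRing.residue (oring W))]
    congr 1
    exact Subtype.ext (inv_mul_cancel₀ ha0)

/-- Two terms of a vanishing sum have the same value. -/
theorem exists_eq_val (W : OVal 𝕂 Ω) {ι : Type*} (s : Finset ι) (t : ι → Ω) {i₀ : ι}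
    (hi₀ : i₀ ∈ s) (ht : t i₀ ≠ 0) (h0 : ∑ i ∈ s, t i = 0) :
    ∃ i ∈ s, ∃ j ∈ s, i ≠ j ∧ t i ≠ 0 ∧ t j ≠ 0 ∧ W (t i) = W (t j) := by
  classical
  by_contra hcon
  push Not at hcon
  -- the term of least value
  obtain ⟨i, hi, hmin⟩ := Finset.exists_min_image (s.filter fun i => t i ≠ 0) (fun i => W (t i))
    ⟨i₀, Finset.mem_filter.2 ⟨hi₀, ht⟩⟩
  rw [Finset.mem_filter] at hi
  have h1 : ∀ j ∈ s.erase i, t j ≠ 0 → W (t i) < W (t j) := by
    intro j hj hj0
    have h2 := hmin j (Finset.mem_filter.2 ⟨Finset.mem_of_mem_erase hj, hj0⟩)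
    have h3 := hcon i hi.1 j (Finset.mem_of_mem_erase hj) (Finset.ne_of_mem_erase hj).symm hi.2 hj0
    exact lt_of_le_of_ne h2 h3
  have h2 : t i = -∑ j ∈ s.erase i, t j := by
    rw [← Finset.add_sum_erase _ _ hi.1] at h0
    exact eq_neg_of_add_eq_zero_left h0
  have hne : ∑ j ∈ s.erase i, t j ≠ 0 := by
    intro h3
    rw [h3, neg_zero] at h2
    exact hi.2 h2
  -- the least value of the other terms
  obtain ⟨l, hl, hl0⟩ : ∃ l ∈ s.erase i, t l ≠ 0 := by
    by_contra h3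
    push Not at h3
    exact hne (Finset.sum_eq_zero h3)
  obtain ⟨m, hm, hm'⟩ := Finset.exists_min_image ((s.erase i).filter fun i => t i ≠ 0)
    (fun i => W (t i)) ⟨l, Finset.mem_filter.2 ⟨hl, hl0⟩⟩
  rw [Finset.mem_filter] at hm
  have h3 : W.Ge (W (t m)) (∑ j ∈ s.erase i, t j) := by
    refine OVal.Ge.sum _ _ fun j hj hj0 => ?_
    exact hm' j (Finset.mem_filter.2 ⟨hj, hj0⟩)
  have h4 := h3 hne
  have h5 : W (t i) = W (∑ j ∈ s.erase i, t j) := by
    conv_lhs => rw [h2]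
    rw [W.map_neg _ hne]
  have h6 := h1 m hm.1 hm.2
  linarith

/-- The element `a` is a root of a polynomial of degree `< p` over `F`. -/
def DegLT (p : ℕ) (F : Subfield Ω) (a : Ω) : Prop :=
  ∃ q : Polynomial Ω, (∀ i, q.coeff i ∈ F) ∧ q ≠ 0 ∧ q.natDegree < p ∧ q.eval a = 0

theorem DegLT.exists_mul {p : ℕ} {F : Subfield Ω} {a : Ω} (h : DegLT p F a) (W : OVal 𝕂 Ω)
    (ha : a ≠ 0) : ∃ e : ℕ, 0 < e ∧ e < p ∧ ∃ f ∈ F, f ≠ 0 ∧ (e : 𝕂) * W a = W f := by
  classical
  obtain ⟨q, hq, hq0, hd, hev⟩ := h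
  rw [Polynomial.eval_eq_sum_range] at hev
  obtain ⟨i, hi, j, hj, hij, hi0, hj0, he⟩ := exists_eq_val W (Finset.range (q.natDegree + 1))
    (fun i => q.coeff i * a ^ i) (i₀ := q.natDegree) (Finset.self_mem_range_succ _)
    (mul_ne_zero (by rw [Polynomial.coeff_natDegree, Ne, Polynomial.leadingCoeff_eq_zero]; exact hq0)
      (pow_ne_zero _ ha)) hev
  have hci := left_ne_zero_of_mul hi0
  have hcj := left_ne_zero_of_mul hj0
  rw [W.map_mul hci (pow_ne_zero _ ha), W.map_mul hcj (pow_ne_zero _ ha), W.map_pow ha,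
    W.map_pow ha] at he
  rw [Finset.mem_range] at hi hj
  have key : ∀ i j : ℕ, j < q.natDegree + 1 → q.coeff i ≠ 0 → q.coeff j ≠ 0 → i < j →
      W (q.coeff i) + i * W a = W (q.coeff j) + j * W a →
      ∃ e : ℕ, 0 < e ∧ e < p ∧ ∃ f ∈ F, f ≠ 0 ∧ (e : 𝕂) * W a = W f := by
    intro i j hj hi0 hj0 hij he
    refine ⟨j - i, by omega, by omega, q.coeff i / q.coeff j, F.div_mem (hq i) (hq j),
      div_ne_zero hi0 hj0, ?_⟩
    rw [W.map_div hi0 hj0, Nat.cast_sub hij.le]
    linear_combination -he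
  rcases lt_or_gt_of_ne hij with h1 | h1
  · exact key i j hj hci hcj h1 he
  · exact key j i hi hcj hci h1 he.symm

/-- The residues are separable. -/
theorem DegLT.sep {p : ℕ} [hp : Fact p.Prime] [CharP Ω p] {F : Subfield Ω} {W : OVal 𝕂 Ω}
    {a : oring W} (h : DegLT p F (a : Ω)) :
    IsSeparable (resF W F) (IsLocalRing.residue (oring W) a) := by
  classical
  obtain ⟨q, hq, hq0, hd, hev⟩ := h
  -- normalise
  obtain ⟨i₀, hi₀, hmin⟩ := Finset.exists_min_image q.support (fun i => W (q.coeff i))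
    (Polynomial.support_nonempty.2 hq0)
  rw [Polynomial.mem_support_iff] at hi₀
  let c : ℕ → Ω := fun i => q.coeff i / q.coeff i₀
  have hcF : ∀ i, c i ∈ F := fun i => F.div_mem (hq i) (hq i₀)
  have hcW : ∀ i, W.Ge 0 (c i) := by
    intro i h0
    have h1 : q.coeff i ≠ 0 := (div_ne_zero_iff.1 h0).1
    change 0 ≤ W (q.coeff i / q.coeff i₀)
    rw [W.map_div h1 hi₀]
    have := hmin i (Polynomial.mem_support_iff.2 h1)
    linarith
  let cR : ℕ → resF W F := fun i =>
    ⟨IsLocalRing.residue (oring W) ⟨c i, hcW i⟩, ⟨c i, hcW i⟩, hcF i, rfl⟩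
  let q2 : Polynomial (resF W F) :=
    ∑ i ∈ Finset.range (q.natDegree + 1), Polynomial.monomial i (cR i)
  have hcoeff : ∀ j, q2.coeff j = if j < q.natDegree + 1 then cR j else 0 := by
    intro j
    rw [Polynomial.finsetSum_coeff]
    simp only [Polynomial.coeff_monomial]
    rw [Finset.sum_ite_eq']
    simp
  have hi₀' : i₀ < q.natDegree + 1 := Nat.lt_succ_of_le (Polynomial.le_natDegree_of_ne_zero hi₀)
  have hq2 : q2 ≠ 0 := by
    intro h0
    have h1 := hcoeff i₀
    rw [h0, Polynomial.coeff_zero, if_pos hi₀'] at h1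
    have h2 : IsLocalRing.residue (oring W) ⟨c i₀, hcW i₀⟩ = 0 := (congrArg Subtype.val h1).symm
    rw [oring_res_eq_zero] at h2
    have h3 : c i₀ = 1 := div_self hi₀
    have h4 := h2 (by change c i₀ ≠ 0; rw [h3]; exact one_ne_zero)
    change 0 < W (c i₀) at h4
    rw [h3, W.map_one] at h4
    exact lt_irrefl _ h4
  have hdeg : q2.natDegree < p := by
    refine lt_of_le_of_lt ?_ hd
    rw [Polynomial.natDegree_le_iff_coeff_eq_zero]
    intro j hj
    rw [hcoeff, if_neg (by omega)]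
  have hroot : Polynomial.aeval (IsLocalRing.residue (oring W) a) q2 = 0 := by
    rw [map_sum]
    have h1 : ∀ i ∈ Finset.range (q.natDegree + 1),
        Polynomial.aeval (IsLocalRing.residue (oring W) a) (Polynomial.monomial i (cR i)) =
        IsLocalRing.residue (oring W) (⟨c i, hcW i⟩ * a ^ i) := by
      intro i _
      rw [Polynomial.aeval_monomial, map_mul, map_pow]
      rfl
    rw [Finset.sum_congr rfl h1, ← map_sum]
    have h2 : ∑ i ∈ Finset.range (q.natDegree + 1), (⟨c i, hcW i⟩ * a ^ i : oring W) = 0 := by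
      apply Subtype.ext
      have h3 : ((∑ i ∈ Finset.range (q.natDegree + 1), (⟨c i, hcW i⟩ * a ^ i : oring W) :
          oring W) : Ω) = ∑ i ∈ Finset.range (q.natDegree + 1), c i * (a : Ω) ^ i := by
        rw [AddSubmonoidClass.coe_finsetSum]
        rfl
      rw [h3]
      rw [Polynomial.eval_eq_sum_range] at hev
      have h4 : ∑ i ∈ Finset.range (q.natDegree + 1), c i * (a : Ω) ^ i =
          (∑ i ∈ Finset.range (q.natDegree + 1), q.coeff i * (a : Ω) ^ i) / q.coeff i₀ := by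
        rw [Finset.sum_div]
        refine Finset.sum_congr rfl fun i _ => ?_
        change q.coeff i / q.coeff i₀ * (a : Ω) ^ i = _
        ring
      rw [h4, hev, zero_div]
      rfl
    rw [h2, map_zero]
  have hint : IsIntegral (resF W F) (IsLocalRing.residue (oring W) a) := by
    rw [← isAlgebraic_iff_isIntegral]
    exact ⟨q2, hq2, hroot⟩
  have hdvd := minpoly.dvd _ _ hroot
  have hmd : (minpoly (resF W F) (IsLocalRing.residue (oring W) a)).natDegree < p :=
    lt_of_le_of_lt (Polynomial.natDegree_le_of_dvd hdvd hq2) hdeg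
  have hpos := minpoly.natDegree_pos hint
  have hirr := minpoly.irreducible hint
  have hchar : CharP (IsLocalRing.ResidueField (oring W)) p := by
    have h1 : CharP (oring W) p := by
      refine ⟨fun m => ?_⟩
      rw [← CharP.cast_eq_zero_iff Ω p m]
      constructor
      · intro h
        have := congrArg Subtype.val h
        simpa using this
      · intro h
        apply Subtype.ext
        simpa using h
    have h2 : (p : IsLocalRing.ResidueField (oring W)) = 0 := by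
      have h3 : (p : oring W) = 0 := CharP.cast_eq_zero _ _
      rw [← map_natCast (IsLocalRing.residue (oring W)), h3, map_zero]
    exact (CharP.charP_iff_prime_eq_zero hp.out).2 h2
  have hchar' : CharP (resF W F) p :=
    (RingHom.charP_iff (algebraMap (resF W F) (IsLocalRing.ResidueField (oring W)))
      (algebraMap (resF W F) (IsLocalRing.ResidueField (oring W))).injective p).2 hchar
  rw [IsSeparable, Polynomial.separable_iff_derivative_ne_zero hirr]
  intro h0
  set d := (minpoly (resF W F) (IsLocalRing.residue (oring W) a)).natDegree with hd'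
  have h1 := congrArg (fun g => Polynomial.coeff g (d - 1)) h0
  simp only [Polynomial.coeff_derivative, Polynomial.coeff_zero] at h1
  have h2 : (((d - 1 : ℕ) : resF W F) + 1) = ((d : ℕ) : resF W F) := by
    exact_mod_cast congrArg (Nat.cast : ℕ → resF W F) (Nat.sub_add_cancel hpos)
  rw [h2, Nat.sub_add_cancel hpos, hd', Polynomial.coeff_natDegree,
    (minpoly.monic hint).leadingCoeff, one_mul, CharP.cast_eq_zero_iff (resF W F) p] at h1
  exact absurd (Nat.le_of_dvd hpos h1) (by omega)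

/-- The setting of the `p`-coordinates: `F` has the values `∑ ℤ u_j`, `W (x j) = u j`, and the
monomials in the `y j` are `p`-independent in the residue field of `F`. -/
structure PC (p : ℕ) (W : OVal 𝕂 Ω) (F : Subfield Ω) {r D : ℕ} (x : Fin r → Ω) (u : Fin r → 𝕂)
    (y : Fin D → Ω) : Prop where
  x_ne : ∀ j, x j ≠ 0
  x_val : ∀ j, W (x j) = u j
  y_mem : ∀ j, y j ∈ F
  y_ge : ∀ j, W.Ge 0 (y j)
  val : ∀ f ∈ F, f ≠ 0 → ∃ m : Fin r → ℤ, W f = ∑ j, (m j : 𝕂) * u j
  ind : ∀ m : Fin r → ℤ, ∑ j, (m j : 𝕂) * u j = 0 → m = 0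
  pind : ∀ c : (Fin D → Fin p) → Ω, (∀ α, c α ∈ F) → (∀ α, W.Ge 0 (c α)) →
    VPos W (∑ α, (∏ j, y j ^ (α j : ℕ)) * c α ^ p) → ∀ α, VPos W (c α)

section PC

variable {p : ℕ} [hp : Fact p.Prime] [CharP Ω p] {W : OVal 𝕂 Ω} {F : Subfield Ω} {r D : ℕ}
  {x : Fin r → Ω} {u : Fin r → 𝕂} {y : Fin D → Ω}

omit hp [CharP Ω p] in
/-- The values of `L` have torsion `< p` over the values of `F`. -/
theorem PC.tors (H : PC p W F x u y) {a : Ω} (ha : DegLT p F a) (ha0 : a ≠ 0) :
    ∃ e : ℕ, 0 < e ∧ e < p ∧ ∃ m : Fin r → ℤ, (e : 𝕂) * W a = ∑ j, (m j : 𝕂) * u j := by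
  obtain ⟨e, he0, hep, f, hf, hf0, h⟩ := ha.exists_mul W ha0
  obtain ⟨m, hm⟩ := H.val f hf hf0
  exact ⟨e, he0, hep, m, by rw [h, hm]⟩

/-- The values `u j` are independent modulo `p`. -/
theorem PC.indepZ (H : PC p W F x u y) {c : Ω} (hc : DegLT p F c) (hc0 : c ≠ 0) (i : Fin r → ℤ)
    (h : ∑ j, (i j : 𝕂) * u j = p * W c) : ∀ j, (p : ℤ) ∣ i j := by
  obtain ⟨e, he0, hep, m, hm⟩ := H.tors hc hc0
  have h1 : (fun j => (e : ℤ) * i j - (p : ℤ) * m j) = 0 := by
    apply H.ind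
    have h2 : ∀ j, (((e : ℤ) * i j - (p : ℤ) * m j : ℤ) : 𝕂) * u j =
        (e : 𝕂) * ((i j : 𝕂) * u j) - (p : 𝕂) * ((m j : 𝕂) * u j) := by
      intro j
      push_cast
      ring
    rw [Finset.sum_congr rfl fun j _ => h2 j, Finset.sum_sub_distrib, ← Finset.mul_sum,
      ← Finset.mul_sum, h, ← hm]
    ring
  intro j
  have h2 : (e : ℤ) * i j = p * m j := by
    have := congrFun h1 j
    simp only [Pi.zero_apply] at this
    linarith
  have h3 : (p : ℤ) ∣ (e : ℤ) * i j := ⟨m j, h2⟩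
  have hpr : Prime (p : ℤ) := Nat.prime_iff_prime_int.1 hp.out
  rcases hpr.dvd_or_dvd h3 with h4 | h4
  · exfalso
    have h5 : p ∣ e := by exact_mod_cast h4
    have := Nat.le_of_dvd he0 h5
    omega
  · exact h4

theorem PC.indep (H : PC p W F x u y) {c : Ω} (hc : DegLT p F c) (hc0 : c ≠ 0) (i : Fin r → ℕ)
    (h : ∑ j, (i j : 𝕂) * u j = p * W c) : ∀ j, p ∣ i j := by
  intro j
  have h1 := H.indepZ hc hc0 (fun j => (i j : ℤ)) (by
    rw [← h]
    exact Finset.sum_congr rfl fun j _ => by push_cast; rfl) j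
  exact_mod_cast h1

/-- `p`-independence of the monomials in the `y j` over extensions of degree `< p`. -/
theorem PC.pindL (H : PC p W F x u y) (c : (Fin D → Fin p) → Ω) (hc : ∀ α, DegLT p F (c α))
    (hcW : ∀ α, W.Ge 0 (c α)) (h : VPos W (∑ α, (∏ j, y j ^ (α j : ℕ)) * c α ^ p)) :
    ∀ α, VPos W (c α) := by
  classical
  have hchar : CharP (oring W) p := by
    refine ⟨fun m => ?_⟩
    rw [← CharP.cast_eq_zero_iff Ω p m]
    constructor
    · intro h
      have := congrArg Subtype.val h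
      simpa using this
    · intro h
      apply Subtype.ext
      simpa using h
  have hchar1 : CharP (IsLocalRing.ResidueField (oring W)) p := by
    have h2 : (p : IsLocalRing.ResidueField (oring W)) = 0 := by
      have h3 : (p : oring W) = 0 := CharP.cast_eq_zero _ _
      rw [← map_natCast (IsLocalRing.residue (oring W)), h3, map_zero]
    exact (CharP.charP_iff_prime_eq_zero hp.out).2 h2
  have hchar' : CharP (resF W F) p :=
    (RingHom.charP_iff (algebraMap (resF W F) (IsLocalRing.ResidueField (oring W)))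
      (algebraMap (resF W F) (IsLocalRing.ResidueField (oring W))).injective p).2 hchar1
  let yR : Fin D → oring W := fun j => ⟨y j, H.y_ge j⟩
  let cR : (Fin D → Fin p) → oring W := fun α => ⟨c α, hcW α⟩
  let b : (Fin D → Fin p) → resF W F := fun α =>
    ⟨IsLocalRing.residue (oring W) (∏ j, yR j ^ (α j : ℕ)), _, by
      have h1 : ((∏ j, yR j ^ (α j : ℕ) : oring W) : Ω) = ∏ j, y j ^ (α j : ℕ) := by
        rw [SubmonoidClass.coe_finsetProd]
        rfl
      rw [h1]
      exact prod_mem fun j _ => pow_mem (H.y_mem j) _, rfl⟩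
  have key := frob_sep (𝕜 := IsLocalRing.ResidueField (oring W)) p b (fun d hd α => ?_)
    (fun α => IsLocalRing.residue (oring W) (cR α)) (fun α => (hc α).sep (a := cR α)) ?_
  · intro α
    exact (oring_res_eq_zero (cR α)).1 (key α)
  · -- lifts
    have hlift : ∀ α, ∃ a : oring W, (a : Ω) ∈ F ∧
        IsLocalRing.residue (oring W) a = (d α : IsLocalRing.ResidueField (oring W)) :=
      fun α => (d α).2
    choose a haF ha using hlift
    have h1 : VPos W (∑ α, (∏ j, y j ^ (α j : ℕ)) * (a α : Ω) ^ p) := by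
      have h2 := (oring_res_eq_zero (∑ α, (∏ j, yR j ^ (α j : ℕ)) * a α ^ p)).1 (by
        rw [map_sum]
        have h3 := congrArg Subtype.val hd
        have h4 : (((∑ α, b α * d α ^ p : resF W F)) :
            IsLocalRing.ResidueField (oring W)) =
            ∑ α, IsLocalRing.residue (oring W) (∏ j, yR j ^ (α j : ℕ)) *
              (d α : IsLocalRing.ResidueField (oring W)) ^ p := by
          rw [AddSubmonoidClass.coe_finsetSum]
          rfl
        change (((∑ α, b α * d α ^ p : resF W F)) : IsLocalRing.ResidueField (oring W)) = 0 at h3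
        rw [← h3, h4]
        refine Finset.sum_congr rfl fun α _ => ?_
        rw [map_mul, map_pow, ha])
      have h5 : ((∑ α, (∏ j, yR j ^ (α j : ℕ)) * a α ^ p : oring W) : Ω) =
          ∑ α, (∏ j, y j ^ (α j : ℕ)) * (a α : Ω) ^ p := by
        rw [AddSubmonoidClass.coe_finsetSum]
        refine Finset.sum_congr rfl fun α _ => ?_
        rw [MulMemClass.coe_mul, SubmonoidClass.coe_pow, SubmonoidClass.coe_finsetProd]
        rfl
      rwa [h5] at h2
    have h6 := H.pind (fun α => (a α : Ω)) haF (fun α => (a α).2) h1 α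
    have h7 := (oring_res_eq_zero (a α)).2 h6
    rw [ha] at h7
    exact Subtype.ext h7
  · have h1 := (oring_res_eq_zero (∑ α, (∏ j, yR j ^ (α j : ℕ)) * cR α ^ p)).2 (by
      have h5 : ((∑ α, (∏ j, yR j ^ (α j : ℕ)) * cR α ^ p : oring W) : Ω) =
          ∑ α, (∏ j, y j ^ (α j : ℕ)) * c α ^ p := by
        rw [AddSubmonoidClass.coe_finsetSum]
        refine Finset.sum_congr rfl fun α _ => ?_
        rw [MulMemClass.coe_mul, SubmonoidClass.coe_pow, SubmonoidClass.coe_finsetProd]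
        rfl
      rwa [h5])
    rw [map_sum] at h1
    rw [← h1]
    refine Finset.sum_congr rfl fun α _ => ?_
    rw [map_mul, map_pow]
    rfl

/-- `p`-coordinates compute the value. -/
theorem PC.coord (H : PC p W F x u y) (c : (Fin r → Fin p) → (Fin D → Fin p) → Ω)
    (L : Subfield Ω) (hL : ∀ a ∈ L, DegLT p F a) (hc : ∀ i α, c i α ∈ L) (τ : 𝕂)
    (h : W.Ge τ (∑ i, ∑ α, (∏ j, x j ^ (i j : ℕ)) * (∏ j, y j ^ (α j : ℕ)) * c i α ^ p)) :
    ∀ i α, c i α ≠ 0 → τ ≤ ∑ j, ((i j : ℕ) : 𝕂) * u j + p * W (c i α) := by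
  classical
  by_contra hcon
  push Not at hcon
  obtain ⟨i₁, α₁, hc1, hlt⟩ := hcon
  -- the least value
  let V : (Fin r → Fin p) × (Fin D → Fin p) → 𝕂 :=
    fun q => ∑ j, ((q.1 j : ℕ) : 𝕂) * u j + p * W (c q.1 q.2)
  obtain ⟨⟨i₀, α₀⟩, h0, hmin⟩ := Finset.exists_min_image
    (Finset.univ.filter fun q : (Fin r → Fin p) × (Fin D → Fin p) => c q.1 q.2 ≠ 0) V
    ⟨(i₁, α₁), by simpa using hc1⟩
  rw [Finset.mem_filter] at h0
  have hc0 : c i₀ α₀ ≠ 0 := h0.2
  have hV0 : V (i₀, α₀) < τ := by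
    refine lt_of_le_of_lt (hmin (i₁, α₁) ?_) hlt
    simpa using hc1
  have hxp : ∀ i : Fin r → Fin p, (∏ j, x j ^ (i j : ℕ)) ≠ 0 ∧
      W (∏ j, x j ^ (i j : ℕ)) = ∑ j, ((i j : ℕ) : 𝕂) * u j := by
    intro i
    refine ⟨Finset.prod_ne_zero_iff.2 fun j _ => pow_ne_zero _ (H.x_ne j), ?_⟩
    rw [W.map_prod _ _ fun j _ => pow_ne_zero _ (H.x_ne j)]
    exact Finset.sum_congr rfl fun j _ => by rw [W.map_pow (H.x_ne j), H.x_val]
  have hpp : 0 < (p : 𝕂) := by exact_mod_cast hp.out.pos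
  -- terms with `i ≠ i₀` have bigger value
  have hne : ∀ i α, i ≠ i₀ → c i α ≠ 0 → V (i₀, α₀) < V (i, α) := by
    intro i α hi hci
    refine lt_of_le_of_ne (hmin (i, α) (by simpa using hci)) fun he => hi ?_
    have h1 : ∑ j, (((i j : ℕ) : ℤ) - ((i₀ j : ℕ) : ℤ) : ℤ) * u j =
        p * W (c i₀ α₀ / c i α) := by
      rw [W.map_div hc0 hci]
      have h2 : ∀ j, ((((i j : ℕ) : ℤ) - ((i₀ j : ℕ) : ℤ) : ℤ) : 𝕂) * u j =
          ((i j : ℕ) : 𝕂) * u j - ((i₀ j : ℕ) : 𝕂) * u j := by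
        intro j
        push_cast
        ring
      rw [Finset.sum_congr rfl fun j _ => h2 j, Finset.sum_sub_distrib]
      change ∑ j, ((i₀ j : ℕ) : 𝕂) * u j + p * W (c i₀ α₀) =
        ∑ j, ((i j : ℕ) : 𝕂) * u j + p * W (c i α) at he
      linear_combination -he
    have h3 := H.indepZ (hL _ (L.div_mem (hc i₀ α₀) (hc i α))) (div_ne_zero hc0 hci)
      (fun j => (((i j : ℕ) : ℤ) - ((i₀ j : ℕ) : ℤ))) h1
    funext j
    apply Fin.ext
    obtain ⟨m, hm⟩ := h3 j
    have h4 := (i j).2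
    have h5 := (i₀ j).2
    have h6 : |(((i j : ℕ) : ℤ) - ((i₀ j : ℕ) : ℤ))| < p := by
      rw [abs_lt]
      constructor <;> omega
    have h7 := Int.eq_zero_of_abs_lt_dvd ⟨m, hm⟩ h6
    omega
  -- normalise
  let d : (Fin D → Fin p) → Ω := fun α => c i₀ α / c i₀ α₀
  have hdL : ∀ α, d α ∈ L := fun α => L.div_mem (hc _ _) (hc _ _)
  have hdW : ∀ α, W.Ge 0 (d α) := by
    intro α h1
    have h2 : c i₀ α ≠ 0 := (div_ne_zero_iff.1 h1).1
    change 0 ≤ W (c i₀ α / c i₀ α₀)
    rw [W.map_div h2 hc0]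
    have h3 := hmin (i₀, α) (by simpa using h2)
    change ∑ j, ((i₀ j : ℕ) : 𝕂) * u j + p * W (c i₀ α₀) ≤
      ∑ j, ((i₀ j : ℕ) : 𝕂) * u j + p * W (c i₀ α) at h3
    have h4 : (p : 𝕂) * W (c i₀ α₀) ≤ p * W (c i₀ α) := by linarith
    have h5 := le_of_mul_le_mul_left h4 hpp
    linarith
  have hyG : ∀ α : Fin D → Fin p, W.Ge 0 (∏ j, y j ^ (α j : ℕ)) := by
    intro α
    have h1 := OVal.Ge.prod (v := W) (fun _ => (0 : 𝕂)) Finset.univ (fun j => y j ^ (α j : ℕ))
      (fun j _ => (oring W).pow_mem (H.y_ge j) _)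
    simpa using h1
  -- the part with `i = i₀`
  have hS : VPos W (∑ α, (∏ j, y j ^ (α j : ℕ)) * d α ^ p) := by
    set X := (∏ j, x j ^ (i₀ j : ℕ)) * c i₀ α₀ ^ p with hX
    have hX0 : X ≠ 0 := mul_ne_zero (hxp i₀).1 (pow_ne_zero _ hc0)
    have hWX : W X = V (i₀, α₀) := by
      rw [hX, W.map_mul (hxp i₀).1 (pow_ne_zero _ hc0), (hxp i₀).2, W.map_pow hc0]
    have e1 : X * (∑ α, (∏ j, y j ^ (α j : ℕ)) * d α ^ p) =
        ∑ α, (∏ j, x j ^ (i₀ j : ℕ)) * (∏ j, y j ^ (α j : ℕ)) * c i₀ α ^ p := by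
      rw [Finset.mul_sum]
      refine Finset.sum_congr rfl fun α _ => ?_
      change (∏ j, x j ^ (i₀ j : ℕ)) * c i₀ α₀ ^ p *
        ((∏ j, y j ^ (α j : ℕ)) * (c i₀ α / c i₀ α₀) ^ p) = _
      rw [div_pow]
      field_simp
    have e2 : X * (∑ α, (∏ j, y j ^ (α j : ℕ)) * d α ^ p) =
        (∑ i, ∑ α, (∏ j, x j ^ (i j : ℕ)) * (∏ j, y j ^ (α j : ℕ)) * c i α ^ p) -
        ∑ i ∈ Finset.univ.erase i₀, ∑ α, (∏ j, x j ^ (i j : ℕ)) * (∏ j, y j ^ (α j : ℕ)) *
          c i α ^ p := by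
      rw [e1, ← Finset.add_sum_erase _ _ (Finset.mem_univ i₀)]
      ring
    intro hne0
    have hgt : V (i₀, α₀) < W (X * (∑ α, (∏ j, y j ^ (α j : ℕ)) * d α ^ p)) := by
      -- a bound strictly bigger
      obtain ⟨τ', hτ', hτ1⟩ : ∃ τ', V (i₀, α₀) < τ' ∧ ∀ i ∈ Finset.univ.erase i₀, ∀ α,
          W.Ge τ' ((∏ j, x j ^ (i j : ℕ)) * (∏ j, y j ^ (α j : ℕ)) * c i α ^ p) := by
        let T := (Finset.univ.filter fun q : (Fin r → Fin p) × (Fin D → Fin p) =>
          q.1 ≠ i₀ ∧ c q.1 q.2 ≠ 0)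
        have hbd : ∀ τ', (∀ q ∈ T, τ' ≤ V q) → ∀ i ∈ Finset.univ.erase i₀, ∀ α,
            W.Ge τ' ((∏ j, x j ^ (i j : ℕ)) * (∏ j, y j ^ (α j : ℕ)) * c i α ^ p) := by
          intro τ' h1 i hi α h2
          have hci : c i α ≠ 0 := by
            intro h3
            apply h2
            rw [h3, zero_pow hp.out.ne_zero, mul_zero]
          have hy0 : (∏ j, y j ^ (α j : ℕ)) ≠ 0 := right_ne_zero_of_mul (left_ne_zero_of_mul h2)
          rw [W.map_mul (mul_ne_zero (hxp i).1 hy0) (pow_ne_zero _ hci),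
            W.map_mul (hxp i).1 hy0, (hxp i).2, W.map_pow hci]
          have h3 := h1 (i, α) (Finset.mem_filter.2 ⟨Finset.mem_univ _,
            Finset.ne_of_mem_erase hi, hci⟩)
          have h4 := hyG α hy0
          change τ' ≤ ∑ j, ((i j : ℕ) : 𝕂) * u j + p * W (c i α) at h3
          linarith
        rcases T.eq_empty_or_nonempty with hT | hT
        · exact ⟨V (i₀, α₀) + 1, by linarith, hbd _ fun q hq => by
            rw [hT] at hq
            exact absurd hq (Finset.notMem_empty q)⟩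
        · obtain ⟨q, hq, hqmin⟩ := Finset.exists_min_image T V hT
          have h1 := Finset.mem_filter.1 hq
          exact ⟨V q, hne q.1 q.2 h1.2.1 h1.2.2, hbd _ hqmin⟩
      have h1 : W.Ge (min τ τ') (X * (∑ α, (∏ j, y j ^ (α j : ℕ)) * d α ^ p)) := by
        rw [e2]
        refine OVal.Ge.sub (h.mono (min_le_left _ _)) ?_
        exact OVal.Ge.sum _ _ fun i hi => OVal.Ge.sum _ _ fun α _ =>
          (hτ1 i hi α).mono (min_le_right _ _)
      exact lt_of_lt_of_le (lt_min hV0 hτ') (h1 (mul_ne_zero hX0 hne0))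
    rw [W.map_mul hX0 hne0, hWX] at hgt
    linarith
  have h1 := H.pindL d (fun α => hL _ (hdL α)) hdW hS α₀
  have h2 : d α₀ = 1 := div_self hc0
  rw [h2] at h1
  have h3 := h1 one_ne_zero
  rw [W.map_one] at h3
  exact lt_irrefl _ h3

end PC

end Val

end Pool.Agent.ALL44
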