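import Pool.Agent.Lib.ALL_h44.Cont
import Pool.Agent.Lib.ALL_h44.Sep

/-!
# PROJECT ALL, block Z: `p`-independence for the content of a frame
-/

set_option autoImplicit false

namespace Pool.Agent.ALL44

open Pool.Agent.H15JM (RVal)
open Pool.Agent.LU1
open Pool.Agent.TA (CtxR)
open Pool.Agent.ALL (FR)
open Pool.Agent.ALLh94

universe u

section Forms

variable {k : Type u} [Field k] (p : ℕ) [hp : Fact p.Prime] [CharP k p] {D : ℕ}

/-- The exponent. -/
noncomputable def mon (α : Fin D → Fin p) : Fin D →₀ ℕ :=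
  Finsupp.equivFunOnFinite.symm fun j => (α j : ℕ)

omit hp in
theorem mon_apply (α : Fin D → Fin p) (j : Fin D) : mon p α j = (α j : ℕ) := rfl

/-- The `X^α P_α^p` are independent. -/
theorem sum_mon_ne_zero {T : Finset (Fin D → Fin p)} (hT : T.Nonempty)
    (P : (Fin D → Fin p) → MvPolynomial (Fin D) k) (hP : ∀ α ∈ T, P α ≠ 0) :
    ∑ α ∈ T, MvPolynomial.monomial (mon p α) 1 * P α ^ p ≠ 0 := by
  classical
  obtain ⟨α₀, hα₀⟩ := hT
  obtain ⟨d₀, hd₀⟩ := MvPolynomial.exists_coeff_ne_zero (hP α₀ hα₀)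
  have hex : ExpChar k p := ExpChar.prime hp.out
  have hpow : ∀ (Q : MvPolynomial (Fin D) k) (m : Fin D →₀ ℕ),
      MvPolynomial.coeff m (Q ^ p) = (MvPolynomial.coeff m (MvPolynomial.expand p Q)) ^ p := by
    intro Q m
    rw [← MvPolynomial.map_frobenius_expand p, MvPolynomial.coeff_map]
    rfl
  intro h0
  have h1 := congrArg (MvPolynomial.coeff (mon p α₀ + p • d₀)) h0
  rw [MvPolynomial.coeff_sum, MvPolynomial.coeff_zero, Finset.sum_eq_single α₀] at h1
  · rw [MvPolynomial.coeff_monomial_mul, one_mul, hpow,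
      MvPolynomial.coeff_expand_smul p hp.out.ne_zero] at h1
    exact hd₀ (pow_eq_zero_iff hp.out.ne_zero |>.1 h1)
  · intro α _ hα
    rw [MvPolynomial.coeff_monomial_mul']
    split_ifs with hle
    · obtain ⟨j, hj⟩ := Function.ne_iff.1 hα
      rw [one_mul, hpow, MvPolynomial.coeff_expand_of_not_dvd (i := j), zero_pow hp.out.ne_zero]
      intro hdvd
      apply hj
      apply Fin.ext
      have h2 := hle j
      rw [Finsupp.tsub_apply, Finsupp.add_apply, mon_apply, mon_apply, Finsupp.smul_apply,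
        smul_eq_mul] at hdvd
      rw [Finsupp.add_apply, mon_apply, mon_apply, Finsupp.smul_apply, smul_eq_mul] at h2
      have h3 := (α j).2
      have h4 := (α₀ j).2
      obtain ⟨c, hc⟩ := hdvd
      have h5 : ((α₀ j : ℕ) : ℤ) - (α j : ℕ) = p * (c - d₀ j) := by
        have : (α₀ j : ℕ) + p * d₀ j = p * c + (α j : ℕ) := by omega
        have h6 : (((α₀ j : ℕ) + p * d₀ j : ℕ) : ℤ) = ((p * c + (α j : ℕ) : ℕ) : ℤ) := by
          exact_mod_cast this
        push_cast at h6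
        linarith
      have h7 := Int.eq_zero_of_abs_lt_dvd ⟨_, h5⟩ (by rw [abs_lt]; constructor <;> omega)
      omega
    · rfl
  · intro h2
    exact absurd hα₀ h2

end Forms

section Frame

variable {k Ω : Type u} [Field k] [Field Ω] [Algebra k Ω] {v : RVal Ω} {n r D : ℕ}

/-- `p`-independence in the ring of a frame. -/
theorem fr_pind (p : ℕ) [hp : Fact p.Prime] [CharP k p] (h : CtxR k v n r) (hr : 0 < r)
    (hn : n = r + D) [Infinite k] (B : FR k v D) (a : (Fin D → Fin p) → Ω)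
    (ha : ∀ α, a α ∈ B.R) (hH : Hi B (∑ α, (∏ j, B.y j ^ (α j : ℕ)) * a α ^ p)) :
    ∀ α, Hi B (a α) := by
  classical
  by_contra hcon
  push Not at hcon
  obtain ⟨α₁, hα₁⟩ := hcon
  have hcharΩ : CharP Ω p := charP_of_injective_algebraMap (algebraMap k Ω).injective p
  have hchar : CharP B.R p :=
    charP_of_injective_algebraMap (algebraMap k B.R).injective p
  have hex : ExpChar B.R p := ExpChar.prime hp.out
  let aR : (Fin D → Fin p) → B.R := fun α => ⟨a α, ha α⟩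
  let J := hiId h hr B
  let I := Ideal.span (Set.range (yR B))
  have hord : ∀ α, ¬ Hi B (a α) → ∃ M, ∃ P : MvPolynomial (Fin D) k, P.IsHomogeneous M ∧
      P ≠ 0 ∧ aR α - MvPolynomial.aeval (yR B) P ∈ J ⊔ I ^ (M + 1) := fun α hα =>
    fr_exists_order h hr B (f := aR α) hα
  choose! M P hP hP0 hord using hord
  let T := Finset.univ.filter fun α => ¬ Hi B (a α)
  have hT : T.Nonempty := ⟨α₁, by simpa [T] using hα₁⟩
  let wt : (Fin D → Fin p) → ℕ := fun α => (∑ j, (α j : ℕ)) + M α * p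
  obtain ⟨α₀, hα₀, hmin⟩ := Finset.exists_min_image T wt hT
  set m := wt α₀ with hm
  let T₀ := T.filter fun α => wt α = m
  have hT₀ : T₀.Nonempty := ⟨α₀, Finset.mem_filter.2 ⟨hα₀, rfl⟩⟩
  have hTn : ∀ α ∈ T, ¬ Hi B (a α) := fun α hα => (Finset.mem_filter.1 hα).2
  -- general facts
  have hyI : ∀ j, yR B j ∈ I := fun j => Ideal.subset_span ⟨j, rfl⟩
  have hpw : ∀ (N : ℕ) (z : B.R), z ∈ J ⊔ I ^ N → z ^ p ∈ J ⊔ I ^ (N * p) := by
    intro N z hz
    obtain ⟨s, hs, t, ht, rfl⟩ := Submodule.mem_sup.1 hz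
    rw [add_pow_expChar]
    refine Ideal.add_mem _ (Ideal.mem_sup_left (Ideal.pow_mem_of_mem _ hs _ hp.out.pos))
      (Ideal.mem_sup_right ?_)
    rw [pow_mul]
    exact Ideal.pow_mem_pow ht _
  have hyα : ∀ α : Fin D → Fin p, (∏ j, yR B j ^ (α j : ℕ)) ∈ I ^ (∑ j, (α j : ℕ)) := by
    intro α
    rw [← Finset.prod_pow_eq_pow_sum]
    exact Ideal.prod_mem_prod fun j _ => Ideal.pow_mem_pow (hyI j) _
  have hyJ : ∀ (α : Fin D → Fin p) (N : ℕ) (z : B.R), z ∈ J ⊔ I ^ N →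
      (∏ j, yR B j ^ (α j : ℕ)) * z ∈ J ⊔ I ^ ((∑ j, (α j : ℕ)) + N) := by
    intro α N z hz
    obtain ⟨s, hs, t, ht, rfl⟩ := Submodule.mem_sup.1 hz
    rw [mul_add]
    refine Ideal.add_mem _ (Ideal.mem_sup_left (Ideal.mul_mem_left _ _ hs))
      (Ideal.mem_sup_right ?_)
    rw [pow_add]
    exact Ideal.mul_mem_mul (hyα α) ht
  have hmono : ∀ {N N' : ℕ}, N ≤ N' → J ⊔ I ^ N' ≤ J ⊔ I ^ N := fun hNN =>
    sup_le_sup_left (Ideal.pow_le_pow_right hNN) _
  have hform : ∀ {L : ℕ} {Q : MvPolynomial (Fin D) k}, Q.IsHomogeneous L →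
      MvPolynomial.aeval (yR B) Q ∈ I ^ L := by
    intro L Q hQ
    rw [MvPolynomial.aeval_def, MvPolynomial.eval₂_eq']
    refine Ideal.sum_mem _ fun d hd => Ideal.mul_mem_left _ _ ?_
    have h1 : ∑ i, d i = L := by
      have h2 := hQ (MvPolynomial.mem_support_iff.1 hd)
      rw [Finsupp.weight_apply, Finsupp.sum_fintype _ _ (fun _ => by simp)] at h2
      simpa using h2
    rw [← h1, ← Finset.prod_pow_eq_pow_sum]
    exact Ideal.prod_mem_prod fun i _ => Ideal.pow_mem_pow (hyI i) _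
  -- the form
  let Q := ∑ α ∈ T₀, MvPolynomial.monomial (mon p α) 1 * P α ^ p
  have hQh : Q.IsHomogeneous m := by
    refine MvPolynomial.IsHomogeneous.sum _ _ _ fun α hα => ?_
    have h1 := Finset.mem_filter.1 hα
    have h2 : (MvPolynomial.monomial (mon p α) (1 : k)).IsHomogeneous (∑ j, (α j : ℕ)) := by
      apply MvPolynomial.isHomogeneous_monomial
      rw [Finsupp.degree_eq_sum]
      rfl
    have h3 := h2.mul ((hP α (hTn α h1.1)).pow p)
    have h4 : (∑ j, (α j : ℕ)) + M α * p = m := h1.2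
    rw [h4] at h3
    exact h3
  have hQ0 : Q ≠ 0 := sum_mon_ne_zero p hT₀ P fun α hα =>
    hP0 α (hTn α (Finset.mem_filter.1 hα).1)
  have hQe : MvPolynomial.aeval (yR B) Q =
      ∑ α ∈ T₀, (∏ j, yR B j ^ (α j : ℕ)) * MvPolynomial.aeval (yR B) (P α) ^ p := by
    rw [map_sum]
    refine Finset.sum_congr rfl fun α _ => ?_
    rw [map_mul, map_pow, MvPolynomial.aeval_monomial, map_one, one_mul, Finsupp.prod_fintype _ _
      (fun _ => pow_zero _)]
    rfl
  apply fr_form h hr hn B Q hQh hQ0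
  rw [hQe]
  -- compare
  have hA : ∑ α, (∏ j, yR B j ^ (α j : ℕ)) * aR α ^ p ∈ J := by
    rw [mem_hiId]
    have h1 : ((∑ α, (∏ j, yR B j ^ (α j : ℕ)) * aR α ^ p : B.R) : Ω) =
        ∑ α, (∏ j, B.y j ^ (α j : ℕ)) * a α ^ p := by
      rw [AddSubmonoidClass.coe_finsetSum]
      refine Finset.sum_congr rfl fun α _ => ?_
      rw [Subalgebra.coe_mul, Subalgebra.coe_pow, SubmonoidClass.coe_finsetProd]
      rfl
    rw [h1]
    exact hH
  have hB : ∀ α ∈ T, (∏ j, yR B j ^ (α j : ℕ)) * aR α ^ p -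
      (∏ j, yR B j ^ (α j : ℕ)) * MvPolynomial.aeval (yR B) (P α) ^ p ∈ J ⊔ I ^ (m + 1) := by
    intro α hα
    rw [← mul_sub, ← sub_pow_expChar]
    refine hmono ?_ (hyJ α _ _ (hpw _ _ (hord α (hTn α hα))))
    have h1 := hmin α hα
    change m ≤ (∑ j, (α j : ℕ)) + M α * p at h1
    have h2 := hp.out.pos
    rw [add_mul]
    omega
  have hC : ∀ α ∈ T, α ∉ T₀ →
      (∏ j, yR B j ^ (α j : ℕ)) * MvPolynomial.aeval (yR B) (P α) ^ p ∈ J ⊔ I ^ (m + 1) := by
    intro α hα hα'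
    have h1 := hmin α hα
    have h2 : wt α ≠ m := fun h3 => hα' (Finset.mem_filter.2 ⟨hα, h3⟩)
    have h3 : m + 1 ≤ (∑ j, (α j : ℕ)) + M α * p := by
      change m ≤ wt α at h1
      change m + 1 ≤ wt α
      omega
    exact hmono h3 (hyJ α _ _ (hpw _ _ (Ideal.mem_sup_right (hform (hP α (hTn α hα))))))
  have hD : ∀ α ∉ T, (∏ j, yR B j ^ (α j : ℕ)) * aR α ^ p ∈ J := by
    intro α hα
    have h1 : Hi B (a α) := by
      by_contra h2
      exact hα (by simpa [T] using h2)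
    exact Ideal.mul_mem_left _ _ (Ideal.pow_mem_of_mem _ h1 _ hp.out.pos)
  have hE : ∑ α ∈ T, (∏ j, yR B j ^ (α j : ℕ)) * aR α ^ p ∈ J := by
    have h1 := Finset.sum_add_sum_compl T fun α => (∏ j, yR B j ^ (α j : ℕ)) * aR α ^ p
    rw [← h1] at hA
    have h2 := Ideal.sub_mem _ hA (Ideal.sum_mem (t := Tᶜ)
      (f := fun α => (∏ j, yR B j ^ (α j : ℕ)) * aR α ^ p) _ fun α hα =>
        hD α (Finset.mem_compl.1 hα))
    rwa [add_sub_cancel_right] at h2
  have hF : ∑ α ∈ T, (∏ j, yR B j ^ (α j : ℕ)) * MvPolynomial.aeval (yR B) (P α) ^ p ∈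
      J ⊔ I ^ (m + 1) := by
    have h1 := Ideal.sub_mem _ (Ideal.mem_sup_left hE) (Ideal.sum_mem _ hB)
    rw [Finset.sum_sub_distrib, sub_sub_cancel] at h1
    exact h1
  have hsub : T₀ ⊆ T := Finset.filter_subset _ _
  rw [← Finset.sum_sdiff hsub] at hF
  have h1 := Ideal.sub_mem _ hF (Ideal.sum_mem (t := T \ T₀)
    (f := fun α => (∏ j, yR B j ^ (α j : ℕ)) * MvPolynomial.aeval (yR B) (P α) ^ p) _ fun α hα =>
      hC α (Finset.mem_sdiff.1 hα).1 (Finset.mem_sdiff.1 hα).2)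
  rwa [add_sub_cancel_left] at h1

/-- `p`-independence over the field of fractions of a frame. -/
theorem IsCont.pind (p : ℕ) [hp : Fact p.Prime] [CharP k p] (h : CtxR k v n r) (hr : 0 < r)
    (hn : n = r + D) [Infinite k] {B : FR k v D} {w : RVal Ω} (hw : IsCont B w)
    {K : IntermediateField k Ω} (hK : FracIs B.R K) (c : (Fin D → Fin p) → Ω)
    (hc : ∀ α, c α ∈ K) (hcw : ∀ α, w.Ge 0 (c α))
    (hS : VPos w (∑ α, (∏ j, B.y j ^ (α j : ℕ)) * c α ^ p)) : ∀ α, VPos w (c α) := by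
  classical
  obtain ⟨b, hb, hb0, h1⟩ := hw.exists_den h hr hn hK Finset.univ c (fun α _ => hc α)
    fun α _ => hcw α
  have hb1 : b ≠ 0 := ne_zero_of_not_hi h hr hb0
  have hwb : w b = 0 := hw.eq_zero hb hb0
  have haR : ∀ α, c α * b ∈ B.R := fun α => h1 α (Finset.mem_univ α)
  have h2 : ∑ α, (∏ j, B.y j ^ (α j : ℕ)) * (c α * b) ^ p =
      (∑ α, (∏ j, B.y j ^ (α j : ℕ)) * c α ^ p) * b ^ p := by
    rw [Finset.sum_mul]
    exact Finset.sum_congr rfl fun α _ => by ring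
  have h3 : Hi B (∑ α, (∏ j, B.y j ^ (α j : ℕ)) * (c α * b) ^ p) := by
    rw [hw.hi_iff h hr hn (B.R.sum_mem fun α _ => B.R.mul_mem
      (B.R.prod_mem fun j _ => B.R.pow_mem (B.y_mem j) _) (B.R.pow_mem (haR α) _)), h2]
    refine hS.mul fun _ => ?_
    rw [w.map_pow hb1, hwb, mul_zero]
  have h4 := fr_pind p h hr hn B (fun α => c α * b) haR h3
  intro α hα
  have h5 := (hw.hi_iff h hr hn (haR α)).1 (h4 α) (mul_ne_zero hα hb1)
  rwa [w.map_mul hα hb1, hwb, add_zero] at h5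

end Frame

end Pool.Agent.ALL44
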