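import Pool.Agent.Lib.ALL_h44.PInd
import Pool.Agent.Lib.ALL_h18.ZDefs

/-!
# PROJECT ALL, block Z, row T0: the content valuation of a frame
-/

set_option autoImplicit false

namespace Pool.Agent.ALL_h18

open Pool.Agent.H15JM (RVal)
open Pool.Agent.LU1 (VPos locv FracIs fixO GoodBasis mem_fixO)
open Pool.Agent.TAO (OVal)
open Pool.Agent.ALL (FR ICl decP)
open Pool.Agent.ALLZ (NRing CN DP FD RD AH le_AH)
open Pool.Agent.ALL6 (AX)
open Pool.Agent.ALL44 (Hi Ct hiId yR mem_hiId hi_of_pow DegLT PC)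

universe u

variable {k Ω : Type u} [Field k] [Field Ω] [Algebra k Ω] {v : RVal Ω} {D n r : ℕ}

/-- Elements of extensions of degree `< q`. -/
theorem degLT_of_mem {F : IntermediateField k Ω} (L : IntermediateField F Ω)
    [FiniteDimensional F L] {q : ℕ} (hq : Module.finrank F L < q) (a : L) :
    DegLT q (algebraMap F L).fieldRange a := by
  have hint : IsIntegral F a := Algebra.IsIntegral.isIntegral _
  have hinj : Function.Injective (algebraMap F L) := (algebraMap F L).injective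
  refine ⟨(minpoly F a).map (algebraMap F L), fun i => ?_, ?_, ?_, ?_⟩
  · rw [Polynomial.coeff_map]
    exact ⟨_, rfl⟩
  · exact (Polynomial.map_ne_zero_iff hinj).2 (minpoly.ne_zero hint)
  · rw [Polynomial.natDegree_map]
    exact lt_of_le_of_lt (minpoly.natDegree_le _) hq
  · rw [Polynomial.eval_map_algebraMap]
    exact minpoly.aeval F a

/-- The setting of the `p`-coordinates. -/
theorem pc_of_isCont {p : ℕ} [hp : Fact p.Prime] [CharP Ω p] [Infinite k] (h : TA.CtxR k v n r)
    (hr : 0 < r) (hn : n = r + D) {B : FR k v D} {F : IntermediateField k Ω}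
    (hF : FracIs B.R F) {w : RVal Ω} (hw : ALL44.IsCont B w) {s : ℕ} {u : Fin s → ℝ}
    (hu : GoodBasis B.Γ ∅ u) (L : IntermediateField F Ω) (W : RVal L)
    (hW : ∀ f : F, f ≠ 0 → W (algebraMap F L f) = w (f : Ω))
    (xL : Fin s → L) (yL : Fin D → L) (hx : ∀ i, (xL i : Ω) = B.χ (u i))
    (hy : ∀ j, (yL j : Ω) = B.y j) :
    PC p (TAO.ofR W) (algebraMap F L).fieldRange xL u yL where
  x_ne := fun j h0 => B.χ_ne _ (hu.mem j) (by rw [← hx j, h0]; rfl)
  x_val := fun j => by
    have h1 : xL j = algebraMap F L ⟨B.χ (u j), ALL44.χ_mem_frac hF (hu.mem j)⟩ :=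
      Subtype.ext (hx j)
    change W (xL j) = u j
    rw [h1, hW _ fun h0 => B.χ_ne _ (hu.mem j) (congrArg Subtype.val h0)]
    exact hw.χ (hu.mem j)
  y_mem := fun j => ⟨⟨B.y j, hF.1 _ (B.y_mem j)⟩, Subtype.ext (hy j).symm⟩
  y_ge := fun j h0 => by
    have h1 : yL j = algebraMap F L ⟨B.y j, hF.1 _ (B.y_mem j)⟩ := Subtype.ext (hy j)
    change 0 ≤ W (yL j)
    rw [h1, hW _ fun h0 => B.y_ne j (congrArg Subtype.val h0)]
    change 0 ≤ w (B.y j)
    rw [hw.y h hr hn j]
  val := by
    rintro _ ⟨f, rfl⟩ hf0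
    have hf0' : f ≠ 0 := by
      rintro rfl
      exact hf0 (map_zero _)
    have hf1 : (f : Ω) ≠ 0 := fun h0 => hf0' (Subtype.ext h0)
    obtain ⟨m, hm⟩ := hu.gen _ (hw.Γ h hr hn hF f.2 hf1)
    refine ⟨m, ?_⟩
    change W (algebraMap F L f) = _
    rw [hW f hf0', hm]
  ind := by
    intro m hm
    have h1 := Fintype.linearIndependent_iff.1 hu.ind (fun i => (m i : ℚ)) (by
      rw [← hm]
      refine Finset.sum_congr rfl fun i _ => ?_
      rw [Rat.smul_def]
      push_cast
      rfl)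
    funext i
    exact_mod_cast h1 i
  pind := by
    have hk : CharP k p := (RingHom.charP_iff (algebraMap k Ω) (algebraMap k Ω).injective p).2
      inferInstance
    intro c hc hcW hS
    choose g hg using hc
    have hgW : ∀ α, w.Ge 0 (g α : Ω) := by
      intro α h0
      have h1 : g α ≠ 0 := fun h2 => h0 (congrArg Subtype.val h2)
      rw [← hW (g α) h1, hg α]
      refine hcW α ?_
      rw [← hg α]
      exact (map_ne_zero _).2 h1
    let yF : Fin D → F := fun j => ⟨B.y j, hF.1 _ (B.y_mem j)⟩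
    let sF : F := ∑ α, (∏ j, yF j ^ (α j : ℕ)) * g α ^ p
    have hs1 : algebraMap F L sF = ∑ α, (∏ j, yL j ^ (α j : ℕ)) * c α ^ p := by
      rw [map_sum]
      refine Finset.sum_congr rfl fun α _ => ?_
      rw [map_mul, map_pow, map_prod, hg]
      congr 1
      refine Finset.prod_congr rfl fun j _ => ?_
      rw [map_pow]
      congr 1
      exact Subtype.ext (hy j).symm
    have hs2 : (sF : Ω) = ∑ α, (∏ j, B.y j ^ (α j : ℕ)) * (g α : Ω) ^ p := by
      rw [AddSubmonoidClass.coe_finsetSum]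
      refine Finset.sum_congr rfl fun α _ => ?_
      rw [MulMemClass.coe_mul, SubmonoidClass.coe_pow, SubmonoidClass.coe_finsetProd]
      rfl
    have h1 := hw.pind p h hr hn hF (fun α => (g α : Ω)) (fun α => (g α).2) hgW (by
      intro h0
      rw [← hs2] at h0 ⊢
      have h2 : sF ≠ 0 := fun h3 => h0 (congrArg Subtype.val h3)
      rw [← hW sF h2, hs1]
      refine hS ?_
      rw [← hs1]
      exact (map_ne_zero _).2 h2)
    intro α h0
    have h2 : g α ≠ 0 := by
      intro h3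
      rw [← hg α, h3, map_zero] at h0
      exact h0 rfl
    change 0 < W (c α)
    rw [← hg α, hW _ h2]
    exact h1 α fun h3 => h2 (Subtype.ext h3)

/-- ROW T0: the content valuation. -/
theorem exists_contP {p : ℕ} [hp : Fact p.Prime] [CharP Ω p] [Infinite k]
    (h : TA.CtxR k v n r) (hr : 0 < r) (hn : n = r + D) (B : FR k v D)
    {F : IntermediateField k Ω} (hF : FracIs B.R F) : ∃ w : RVal Ω, ContP p B F w := by
  obtain ⟨w, hw⟩ := ALL44.exists_isCont h hr hn B hF
  refine ⟨w, ⟨⟨fun γ hγ => hw.χ hγ, fun f hf => hw.ge h hr hn hf, fun f hf hf0 =>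
    hw.Γ h hr hn hF (hF.1 f hf) hf0, fun f hf hf0 => hw.div_mem h hr hn hf hf0⟩, ?_, ?_, ?_⟩⟩
  · -- separatedness
    intro f hf hj
    rw [← hw.hi_iff h hr hn hf]
    refine hi_of_pow h hr hn B (f := ⟨f, hf⟩) fun M => ?_
    obtain ⟨e, he, hfe⟩ := hj M
    have hyI : ∀ i, yR B i ∈ Ideal.span (Set.range (yR B)) := fun i => Ideal.subset_span ⟨i, rfl⟩
    have h1 : ∃ t ∈ Ideal.span (Set.range (yR B)) ^ M, (t : Ω) = e := by
      clear hfe
      induction he using AddSubgroup.closure_induction with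
      | mem e he =>
        obtain ⟨β, hβ, b, hb, rfl⟩ := he
        refine ⟨(∏ i, yR B i ^ β i) * ⟨b, hb⟩, Ideal.mul_mem_right _ _ ?_, ?_⟩
        · rw [← hβ, ← Finset.prod_pow_eq_pow_sum]
          exact Ideal.prod_mem_prod fun i _ => Ideal.pow_mem_pow (hyI i) _
        · rw [Subalgebra.coe_mul, SubmonoidClass.coe_finsetProd]
          rfl
      | zero => exact ⟨0, Ideal.zero_mem _, rfl⟩
      | add a b _ _ h1 h2 =>
        obtain ⟨s, hs, rfl⟩ := h1
        obtain ⟨t, ht, rfl⟩ := h2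
        exact ⟨s + t, Ideal.add_mem _ hs ht, rfl⟩
      | neg a _ h1 =>
        obtain ⟨s, hs, rfl⟩ := h1
        exact ⟨-s, neg_mem hs, rfl⟩
    obtain ⟨t, ht, rfl⟩ := h1
    have h2 : (⟨f, hf⟩ : B.R) - t ∈ hiId h hr B := by
      rw [mem_hiId, hw.hi_iff h hr hn (Subtype.prop _)]
      exact hfe
    have h3 := Ideal.add_mem _ (Ideal.mem_sup_left h2)
      (Ideal.mem_sup_right (S := hiId h hr B) ht)
    rwa [sub_add_cancel] at h3
  · -- (6.1)
    intro s u hu L _ hL W hW xL yL hx hy c τ hτ μ hμ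
    have H := pc_of_isCont (p := p) h hr hn hF hw hu L W hW xL yL hx hy
    have hchar : CharP L p := (RingHom.charP_iff (algebraMap L Ω) (algebraMap L Ω).injective p).2
      inferInstance
    have h1 := H.coord (fun i α => c (i, α)) ⊤ (fun a _ => degLT_of_mem L hL a)
      (fun i α => trivial) τ (by
        rw [Fintype.sum_prod_type] at hτ
        exact hτ) μ.1 μ.2 hμ
    exact h1
  · -- torsion
    intro L _ hL W hW a ha0
    obtain ⟨e, he0, hep, f, ⟨g, rfl⟩, hf0, he⟩ := (degLT_of_mem L (Nat.lt_succ_self _) a).exists_mul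
      (TAO.ofR W) ha0
    refine ⟨e, he0, Nat.lt_succ_iff.1 hep, ?_⟩
    have hg0 : g ≠ 0 := by
      rintro rfl
      exact hf0 (map_zero _)
    have h1 : (e : ℝ) * W a = w (g : Ω) := by
      rw [← hW g hg0]
      exact he
    rw [h1]
    exact hw.Γ h hr hn hF g.2 fun h3 => hg0 (Subtype.ext h3)

end Pool.Agent.ALL_h18
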