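import Pool.Agent.Lib.ALL_h44.Content
import Pool.Agent.Lib.LU1_h15.Rep
import Pool.Agent.Lib.LU1_h15.ExtVal_H1

/-!
# PROJECT ALL, block 0: the content valuation of a frame
-/

set_option autoImplicit false

namespace Pool.Agent.ALL44

open Pool.Agent.H15JM (RVal)
open Pool.Agent.LU1
open Pool.Agent.LU1.RepAux (Agt finite_lt eq_of_weight)
open Pool.Agent.LU3 (Ctx0)
open Pool.Agent.TA (CtxR)
open Pool.Agent.ALL (FR)
open Pool.Agent.ALLh94

universe u

/-- The leading monomial in a local noetherian ring. -/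
theorem leading {S : Type*} [CommRing S] [IsNoetherianRing S] [IsLocalRing S] {r : ℕ}
    (x : Fin r → S) (hx : ∀ i, x i ∈ IsLocalRing.maximalIdeal S)
    (w : Fin r → ℝ) (hw : ∀ i, 0 < w i) (hind : LinearIndependent ℚ w) (f : S) (hf : f ≠ 0) :
    ∃ (a : Fin r → ℕ) (f0 : S), f0 ∉ Ideal.span (Set.range x) ∧
      f - (∏ i, x i ^ a i) * f0 ∈ Agt x w (∑ i, (a i : ℝ) * w i) := by
  classical
  -- `Agt` is small for large weights
  have hsmall : ∀ M : ℕ, ∃ c : ℝ, Agt x w c ≤ IsLocalRing.maximalIdeal S ^ M := by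
    intro M
    obtain ⟨W, hW0, hW⟩ : ∃ W : ℝ, 0 < W ∧ ∀ i, w i ≤ W := by
      refine ⟨1 + ∑ i, w i, ?_, fun i => ?_⟩
      · have := Finset.sum_nonneg (s := Finset.univ) fun i _ => (hw i).le
        linarith
      · have := Finset.single_le_sum (fun j _ => (hw j).le) (Finset.mem_univ i)
        linarith
    refine ⟨M * W, ?_⟩
    rw [Agt, Ideal.span_le]
    rintro _ ⟨b, hb, rfl⟩
    have h1 : M ≤ ∑ i, b i := by
      by_contra hcon
      have h2 : (∑ i, b i) ≤ M := by omega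
      have h3 : ∑ i, (b i : ℝ) * w i ≤ ∑ i, (b i : ℝ) * W :=
        Finset.sum_le_sum fun i _ => mul_le_mul_of_nonneg_left (hW i) (Nat.cast_nonneg _)
      rw [← Finset.sum_mul] at h3
      have h5 : ((∑ i, (b i : ℝ))) * W ≤ M * W := by
        apply mul_le_mul_of_nonneg_right _ hW0.le
        exact_mod_cast h2
      linarith
    apply Ideal.pow_le_pow_right h1
    rw [← Finset.prod_pow_eq_pow_sum]
    exact Ideal.prod_mem_prod fun i _ => Ideal.pow_mem_pow (hx i) _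
  -- weights for which `f` is not in `Agt`
  have hbig : ∃ c : ℝ, f ∉ Agt x w c := by
    have h1 : f ∉ (⨅ i : ℕ, IsLocalRing.maximalIdeal S ^ i) := by
      rw [Ideal.iInf_pow_eq_bot_of_isLocalRing _ (IsLocalRing.maximalIdeal.isMaximal S).ne_top,
        Ideal.mem_bot]
      exact hf
    rw [Ideal.mem_iInf] at h1
    push Not at h1
    obtain ⟨M, hM⟩ := h1
    obtain ⟨c, hc⟩ := hsmall M
    exact ⟨c, fun h => hM (hc h)⟩
  obtain ⟨c, hc⟩ := hbig
  have hanti : ∀ c d : ℝ, c ≤ d → Agt x w d ≤ Agt x w c := by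
    intro c d hcd
    apply Ideal.span_mono
    rintro _ ⟨b, hb, rfl⟩
    exact ⟨b, hcd.trans_lt hb, rfl⟩
  have hmono : ∀ b : Fin r → ℕ, ∀ c : ℝ, c < ∑ i, (b i : ℝ) * w i →
      ∏ i, x i ^ b i ∈ Agt x w c := fun b c hb => Ideal.subset_span ⟨b, hb, rfl⟩
  -- the least weight with this property
  obtain ⟨a, ha, hamin⟩ : ∃ a : Fin r → ℕ, f ∉ Agt x w (∑ i, (a i : ℝ) * w i) ∧
      ∀ b : Fin r → ℕ, ∑ i, (b i : ℝ) * w i < ∑ i, (a i : ℝ) * w i →
        f ∈ Agt x w (∑ i, (b i : ℝ) * w i) := by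
    -- there is some
    obtain ⟨a0, ha0⟩ : ∃ a0 : Fin r → ℕ, f ∉ Agt x w (∑ i, (a0 i : ℝ) * w i) := by
      by_cases hr : Nonempty (Fin r)
      · obtain ⟨i0⟩ := hr
        obtain ⟨M, hM⟩ := exists_nat_ge (c / w i0)
        rw [div_le_iff₀ (hw i0)] at hM
        refine ⟨fun _ => M, fun h => hc (hanti _ _ (hM.trans ?_) h)⟩
        exact Finset.single_le_sum (f := fun j => (M : ℝ) * w j)
          (fun j _ => mul_nonneg (Nat.cast_nonneg _) (hw j).le) (Finset.mem_univ i0)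
      · rw [not_nonempty_iff] at hr
        refine ⟨fun _ => 0, fun h => hf ?_⟩
        have h1 : Agt x w (∑ i, (((fun _ => 0 : Fin r → ℕ) i : ℕ) : ℝ) * w i) = ⊥ := by
          rw [Agt, Ideal.span_eq_bot]
          rintro _ ⟨b, hb, rfl⟩
          simp at hb
        rw [h1] at h
        exact (Ideal.mem_bot).1 h
    have hfin : ({b : Fin r → ℕ | ∑ i, (b i : ℝ) * w i < ∑ i, (a0 i : ℝ) * w i + 1} ∩
        {b | f ∉ Agt x w (∑ i, (b i : ℝ) * w i)}).Finite :=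
      (finite_lt w hw _).subset Set.inter_subset_left
    obtain ⟨a, ha, hmin⟩ := Set.exists_min_image _ (fun b : Fin r → ℕ => ∑ i, (b i : ℝ) * w i)
      hfin ⟨a0, by
        show ∑ i, (a0 i : ℝ) * w i < ∑ i, (a0 i : ℝ) * w i + 1
        linarith, ha0⟩
    refine ⟨a, ha.2, fun b hb => ?_⟩
    by_contra hcon
    have h1 : ∑ i, (a i : ℝ) * w i < ∑ i, (a0 i : ℝ) * w i + 1 := ha.1
    have h2 : ∑ i, (a i : ℝ) * w i ≤ ∑ i, (b i : ℝ) * w i := hmin b ⟨by
      show ∑ i, (b i : ℝ) * w i < ∑ i, (a0 i : ℝ) * w i + 1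
      linarith, hcon⟩
    linarith
  -- `f ∈ (x^a) + Agt a`
  have hfa : f ∈ Ideal.span {∏ i, x i ^ a i} ⊔ Agt x w (∑ i, (a i : ℝ) * w i) := by
    by_cases h0 : a = 0
    · subst h0
      simp
    · have hpos : 0 < ∑ i, (a i : ℝ) * w i := by
        obtain ⟨i, hi⟩ := Function.ne_iff.1 h0
        have h1 : (a i : ℝ) * w i ≤ ∑ j, (a j : ℝ) * w j :=
          Finset.single_le_sum (f := fun j => (a j : ℝ) * w j)
            (fun j _ => mul_nonneg (Nat.cast_nonneg _) (hw j).le) (Finset.mem_univ i)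
        have h2 : 0 < (a i : ℝ) := by exact_mod_cast Nat.pos_of_ne_zero hi
        exact (mul_pos h2 (hw i)).trans_le h1
      obtain ⟨b, hb, hmax⟩ := Set.exists_max_image _
        (fun b : Fin r → ℕ => ∑ i, (b i : ℝ) * w i)
        (finite_lt w hw (∑ i, (a i : ℝ) * w i)) ⟨0, by
          show ∑ i, (((0 : Fin r → ℕ) i : ℕ) : ℝ) * w i < _
          simpa using hpos⟩
      refine (?_ : Agt x w (∑ i, (b i : ℝ) * w i) ≤ _) (hamin b hb)
      rw [Agt, Ideal.span_le]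
      rintro _ ⟨e, he, rfl⟩
      rcases lt_trichotomy (∑ i, (e i : ℝ) * w i) (∑ i, (a i : ℝ) * w i) with h1 | h1 | h1
      · have h2 : ∑ i, (e i : ℝ) * w i ≤ ∑ i, (b i : ℝ) * w i := hmax e h1
        linarith
      · rw [eq_of_weight w hind h1]
        exact Ideal.mem_sup_left (Ideal.mem_span_singleton_self _)
      · exact Ideal.mem_sup_right (hmono e _ h1)
  obtain ⟨z, hz, h, hh, hzh⟩ := Submodule.mem_sup.1 hfa
  obtain ⟨f0, rfl⟩ := Ideal.mem_span_singleton'.1 hz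
  -- `x^a (x) ⊆ Agt a`
  have hJ : ∀ j ∈ Ideal.span (Set.range x),
      (∏ i, x i ^ a i) * j ∈ Agt x w (∑ i, (a i : ℝ) * w i) := by
    intro j hj
    induction hj using Submodule.span_induction with
    | mem z hz =>
      obtain ⟨i, rfl⟩ := hz
      have h1 : (∏ j, x j ^ a j) * x i = ∏ j, x j ^ ((a + Pi.single i 1 : Fin r → ℕ) j) := by
        simp only [Pi.add_apply, pow_add, Finset.prod_mul_distrib]
        congr 1
        rw [Finset.prod_eq_single i]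
        · simp
        · intro j _ hj
          rw [Pi.single_eq_of_ne hj, pow_zero]
        · intro h; exact absurd (Finset.mem_univ i) h
      rw [h1]
      apply hmono
      have h2 : ∑ j, (((a + Pi.single i 1 : Fin r → ℕ) j : ℕ) : ℝ) * w j =
          ∑ j, (a j : ℝ) * w j + w i := by
        simp only [Pi.add_apply, Nat.cast_add, add_mul, Finset.sum_add_distrib]
        congr 1
        rw [Finset.sum_eq_single i]
        · simp
        · intro j _ hj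
          rw [Pi.single_eq_of_ne hj, Nat.cast_zero, zero_mul]
        · intro h; exact absurd (Finset.mem_univ i) h
      rw [h2]
      linarith [hw i]
    | zero => rw [mul_zero]; exact Ideal.zero_mem _
    | add z t _ _ hz ht => rw [mul_add]; exact Ideal.add_mem _ hz ht
    | smul c z _ hz =>
      rw [smul_eq_mul, mul_left_comm]
      exact Ideal.mul_mem_left _ _ hz
  have hf0 : f0 ∉ Ideal.span (Set.range x) := by
    intro h1
    apply ha
    rw [← hzh, mul_comm f0]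
    exact Ideal.add_mem _ (hJ f0 h1) hh
  refine ⟨a, f0, hf0, ?_⟩
  have h2 : f - (∏ i, x i ^ a i) * f0 = h := by
    rw [← hzh]; ring
  rw [h2]
  exact hh


section Frame

variable {k Ω : Type u} [Field k] [Field Ω] [Algebra k Ω] {v : RVal Ω} {n r D : ℕ}

/-- Elements of a noetherian level which are not in `(x)` are not in `χ(> 0) R`. -/
theorem not_hi_of_level (h : CtxR k v n r) (hr : 0 < r) (hn : n = r + D) [Infinite k]
    (B : FR k v D) (N : NFD k v r D) (hNR : N.R ≤ B.R) (hNy : N.y = B.y)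
    (hNx : ∀ i, ∃ γ ∈ B.Γ, 0 < γ ∧ N.x i = B.χ γ) {f : Ω} (hf : f ∈ N.R)
    (hf0 : (⟨f, hf⟩ : N.R) ∉ Ideal.span (Set.range fun i => (⟨N.x i, N.x_mem i⟩ : N.R))) :
    ¬ Hi B f := by
  classical
  intro hH
  have L := NFD.lr N
  have hloc : IsLocalRing N.R := L.isLocalRing
  have hno : IsNoetherianRing N.R := L.isNoetherian
  let J : Ideal N.R := Ideal.span (Set.range fun i => (⟨N.x i, N.x_mem i⟩ : N.R))
  let y : Fin D → N.R := fun j => ⟨N.y j, N.y_mem j⟩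
  have hmax : ∀ t : N.R, VPos v (t : Ω) → t ∈ IsLocalRing.maximalIdeal N.R := fun t ht => by
    rw [IsLocalRing.mem_maximalIdeal]
    exact (L.mem_nonunits _).2 ht
  obtain ⟨M, P, hP, hP0, h1⟩ := exists_order (k := k) y J inferInstance (by
      rw [Ideal.span_le]
      rintro _ ⟨i, rfl⟩
      exact hmax _ fun _ => N.x_pos i) (fun j => hmax _ fun _ => N.y_pos j) (by
      intro t
      obtain ⟨c, hc⟩ := residue h.toCtx0 (N.nonneg _ t.2)
      refine ⟨c, ?_⟩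
      obtain ⟨a, ha, b, hb, e⟩ := N.gen _ (N.R.sub_mem t.2 (N.R.algebraMap_mem c)) hc
      have e1 : t - algebraMap k N.R c = ∑ i, ⟨N.x i, N.x_mem i⟩ * ⟨a i, ha i⟩ +
          ∑ j, y j * ⟨b j, hb j⟩ := by
        apply Subtype.ext
        rw [Subalgebra.coe_add, AddSubmonoidClass.coe_finsetSum,
          AddSubmonoidClass.coe_finsetSum]
        exact e
      rw [e1]
      exact Ideal.add_mem _
        (Ideal.mem_sup_left (Ideal.sum_mem _ fun i _ =>
          Ideal.mul_mem_right _ _ (Ideal.subset_span ⟨i, rfl⟩)))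
        (Ideal.mem_sup_right (Ideal.sum_mem _ fun j _ =>
          Ideal.mul_mem_right _ _ (Ideal.subset_span ⟨j, rfl⟩)))) hf0
  let φ : N.R →ₐ[k] B.R := Subalgebra.inclusion hNR
  have hφJ : ∀ t ∈ J, φ t ∈ hiId h hr B := by
    intro t ht
    induction ht using Submodule.span_induction with
    | mem t ht =>
      obtain ⟨i, rfl⟩ := ht
      obtain ⟨γ, hγ, hγ0, e⟩ := hNx i
      rw [mem_hiId]
      exact ⟨γ, hγ, hγ0, 1, B.R.one_mem, by rw [mul_one]; exact e⟩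
    | zero => rw [map_zero]; exact Ideal.zero_mem _
    | add s t _ _ h1 h2 => rw [map_add]; exact Ideal.add_mem _ h1 h2
    | smul a s _ h1 => rw [smul_eq_mul, map_mul]; exact Ideal.mul_mem_left _ _ h1
  have hφy : ∀ j, φ (y j) = yR B j := fun j => by
    apply Subtype.ext
    change N.y j = B.y j
    rw [hNy]
  obtain ⟨a, ha, b, hb, hab⟩ := Submodule.mem_sup.1 h1
  refine fr_form h hr hn B P hP hP0 ?_
  have h2 : MvPolynomial.aeval (yR B) P = φ (⟨f, hf⟩ : N.R) - φ a - φ b := by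
    have h3 : φ (MvPolynomial.aeval y P) = MvPolynomial.aeval (yR B) P := by
      have h4 : (φ.comp (MvPolynomial.aeval y)) = MvPolynomial.aeval (yR B) := by
        rw [MvPolynomial.comp_aeval]
        congr 1
        funext j
        exact hφy j
      exact DFunLike.congr_fun h4 P
    have h5 := congrArg φ hab
    rw [map_add, map_sub, h3] at h5
    linear_combination h5
  rw [h2]
  refine Ideal.sub_mem _ (Ideal.sub_mem _ (Ideal.mem_sup_left ?_)
    (Ideal.mem_sup_left (hφJ a ha))) (Ideal.mem_sup_right ?_)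
  · exact hH
  · have h6 := Ideal.mem_map_of_mem φ hb
    rw [Ideal.map_pow, Ideal.map_span] at h6
    have h7 : (φ '' Set.range y) = Set.range (yR B) := by
      rw [← Set.range_comp]
      congr 1
      funext j
      exact hφy j
    rwa [h7] at h6

/-- The content of an element of the ring. -/
theorem exists_content (h : CtxR k v n r) (hr : 0 < r) (hn : n = r + D) [Infinite k]
    (B : FR k v D) {f : Ω} (hf : f ∈ B.R) (hf0 : f ≠ 0) :
    ∃ κ ∈ B.Γ, 0 ≤ κ ∧ ∃ f0 ∈ B.R, ¬ Hi B f0 ∧ f = B.χ κ * f0 := by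
  classical
  obtain ⟨S0, G, hS0, -, -, hG⟩ := fr_exists_NFD h.toCtx0 hr B {f} (by
    intro g hg
    rw [Finset.mem_singleton.1 hg]
    exact hf)
  obtain ⟨u, hu⟩ := fr_exists_basis h hr B S0 hS0
  obtain ⟨N, hNx, hNy, -, hNR, hNT⟩ := hG u hu
  have hfN : f ∈ N.R := hNT f (Finset.mem_singleton_self f)
  have L := NFD.lr N
  have hloc : IsLocalRing N.R := L.isLocalRing
  have hno : IsNoetherianRing N.R := L.isNoetherian
  let x : Fin r → N.R := fun i => ⟨N.x i, N.x_mem i⟩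
  obtain ⟨a, f0, hf0', hA⟩ := leading x (fun i => by
    rw [IsLocalRing.mem_maximalIdeal]
    exact (L.mem_nonunits _).2 fun _ => N.x_pos i) u hu.pos hu.ind (⟨f, hfN⟩ : N.R)
    (fun h0 => hf0 (congrArg Subtype.val h0))
  have hχ : ∀ m : Fin r → ℕ, (∑ i, (m i : ℝ) * u i) ∈ B.Γ ∧
      ((∏ i, x i ^ m i : N.R) : Ω) = B.χ (∑ i, (m i : ℝ) * u i) := by
    intro m
    have h1 := (χ_sum B Finset.univ u hu.mem fun i => (m i : ℤ))
    simp only [Int.cast_natCast] at h1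
    refine ⟨h1.1, ?_⟩
    rw [h1.2, SubmonoidClass.coe_finsetProd]
    refine Finset.prod_congr rfl fun i _ => ?_
    rw [SubmonoidClass.coe_pow, zpow_natCast, ← hNx]
  have hall : ∀ t ∈ Agt x u (∑ i, (a i : ℝ) * u i),
      ∃ z, Hi B z ∧ (t : Ω) = B.χ (∑ i, (a i : ℝ) * u i) * z := by
    intro t ht
    induction ht using Submodule.span_induction with
    | mem t ht =>
      obtain ⟨m, hm, rfl⟩ := ht
      rw [(hχ m).2]
      have h1 := B.Γ.sub_mem (hχ m).1 (hχ a).1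
      refine ⟨B.χ (∑ i, (m i : ℝ) * u i - ∑ i, (a i : ℝ) * u i), ⟨_, h1, by linarith, 1,
        B.R.one_mem, by rw [mul_one]⟩, ?_⟩
      rw [← B.χ_add _ (hχ a).1 _ h1, add_sub_cancel]
    | zero => exact ⟨0, Hi.zero h hr B, by rw [mul_zero]; rfl⟩
    | add s t _ _ h1 h2 =>
      obtain ⟨z, hz, e1⟩ := h1
      obtain ⟨z', hz', e2⟩ := h2
      exact ⟨z + z', hz.add hz', by rw [Subalgebra.coe_add, e1, e2, mul_add]⟩
    | smul c t _ h1 =>
      obtain ⟨z, hz, e1⟩ := h1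
      refine ⟨z * c, hz.mul (hNR c.2), ?_⟩
      rw [smul_eq_mul, Subalgebra.coe_mul, e1]
      ring
  obtain ⟨z, hz, e⟩ := hall _ hA
  have hni : ¬ Hi B (f0 : Ω) := not_hi_of_level h hr hn B N hNR hNy
    (fun i => ⟨u i, hu.mem i, hu.pos i, hNx i⟩) f0.2 hf0'
  refine ⟨_, (hχ a).1, Finset.sum_nonneg fun i _ => mul_nonneg (Nat.cast_nonneg _) (hu.pos i).le,
    (f0 : Ω) + z, B.R.add_mem (hNR f0.2) hz.mem, ?_, ?_⟩
  · intro h1
    apply hni
    have h2 := h1.sub hz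
    rwa [add_sub_cancel_right] at h2
  · have e1 : ((⟨f, hfN⟩ - (∏ i, x i ^ a i) * f0 : N.R) : Ω) =
        f - B.χ (∑ i, (a i : ℝ) * u i) * (f0 : Ω) := by
      rw [Subalgebra.coe_sub, Subalgebra.coe_mul, (hχ a).2]
    rw [e1] at e
    linear_combination e

/-- `f` has content `κ`. -/
def Ct (B : FR k v D) (f : Ω) (κ : ℝ) : Prop :=
  κ ∈ B.Γ ∧ ∃ a ∈ B.R, ∃ b ∈ B.R, ¬ Hi B a ∧ ¬ Hi B b ∧ f * b = B.χ κ * a

theorem Ct.unique (h : CtxR k v n r) (hr : 0 < r) (hn : n = r + D) [Infinite k]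
    {B : FR k v D} {f : Ω} {κ κ' : ℝ} (h1 : Ct B f κ) (h2 : Ct B f κ') : κ = κ' := by
  have key : ∀ κ κ' : ℝ, Ct B f κ → Ct B f κ' → ¬ κ < κ' := by
    rintro κ κ' ⟨hκ, a, ha, b, hb, ha0, hb0, e⟩ ⟨hκ', a', ha', b', hb', ha0', hb0', e'⟩ hlt
    have h3 : B.χ κ * (a * b') = B.χ κ' * (a' * b) := by
      linear_combination b * e' - b' * e
    have h4 : a * b' = B.χ (κ' - κ) * (a' * b) := by
      have h5 : B.χ κ' = B.χ κ * B.χ (κ' - κ) := by
        rw [← B.χ_add _ hκ _ (B.Γ.sub_mem hκ' hκ), add_sub_cancel]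
      rw [h5, mul_assoc] at h3
      exact mul_left_cancel₀ (B.χ_ne _ hκ) h3
    have h6 : Hi B (a * b') := ⟨κ' - κ, B.Γ.sub_mem hκ' hκ, by linarith, a' * b,
      B.R.mul_mem ha' hb, h4⟩
    rcases hi_prime h hr hn B ha hb' h6 with h7 | h7
    · exact ha0 h7
    · exact hb0' h7
  rcases lt_trichotomy κ κ' with h3 | h3 | h3
  · exact absurd h3 (key _ _ h1 h2)
  · exact h3
  · exact absurd h3 (key _ _ h2 h1)

theorem Ct.ne_zero (h : CtxR k v n r) (hr : 0 < r) {B : FR k v D} {f : Ω} {κ : ℝ}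
    (h1 : Ct B f κ) : f ≠ 0 := by
  rintro rfl
  obtain ⟨hκ, a, ha, b, hb, ha0, hb0, e⟩ := h1
  rw [zero_mul] at e
  rcases mul_eq_zero.1 e.symm with h2 | h2
  · exact B.χ_ne _ hκ h2
  · exact ne_zero_of_not_hi h hr ha0 h2

theorem Ct.mul (h : CtxR k v n r) (hr : 0 < r) (hn : n = r + D) [Infinite k]
    {B : FR k v D} {f f' : Ω} {κ κ' : ℝ} (h1 : Ct B f κ) (h2 : Ct B f' κ') :
    Ct B (f * f') (κ + κ') := by
  obtain ⟨hκ, a, ha, b, hb, ha0, hb0, e⟩ := h1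
  obtain ⟨hκ', a', ha', b', hb', ha0', hb0', e'⟩ := h2
  refine ⟨B.Γ.add_mem hκ hκ', a * a', B.R.mul_mem ha ha', b * b', B.R.mul_mem hb hb', ?_, ?_, ?_⟩
  · intro h3
    rcases hi_prime h hr hn B ha ha' h3 with h4 | h4
    · exact ha0 h4
    · exact ha0' h4
  · intro h3
    rcases hi_prime h hr hn B hb hb' h3 with h4 | h4
    · exact hb0 h4
    · exact hb0' h4
  · rw [B.χ_add _ hκ _ hκ']
    linear_combination f' * b' * e + B.χ κ * a * e'

theorem ct_of_mem (h : CtxR k v n r) (hr : 0 < r) (hn : n = r + D) [Infinite k]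
    (B : FR k v D) {f : Ω} (hf : f ∈ B.R) (hf0 : f ≠ 0) :
    ∃ κ, 0 ≤ κ ∧ Ct B f κ ∧ f / B.χ κ ∈ B.R := by
  obtain ⟨κ, hκ, hκ0, f0, hf0', hni, e⟩ := exists_content h hr hn B hf hf0
  refine ⟨κ, hκ0, ⟨hκ, f0, hf0', 1, B.R.one_mem, hni, hi_one B, by rw [mul_one, e]⟩, ?_⟩
  rw [e, mul_div_cancel_left₀ _ (B.χ_ne _ hκ)]
  exact hf0'

theorem exists_ct (h : CtxR k v n r) (hr : 0 < r) (hn : n = r + D) [Infinite k]
    (B : FR k v D) {K : IntermediateField k Ω} (hK : FracIs B.R K) {f : Ω} (hf : f ∈ K)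
    (hf0 : f ≠ 0) : ∃ κ, Ct B f κ := by
  obtain ⟨a, ha, b, hb, hb0, e⟩ := hK.2 f hf
  have ha0 : a ≠ 0 := by
    rintro rfl
    rw [zero_div] at e
    exact hf0 e
  obtain ⟨κ, hκ, hκ0, a0, ha0', hna, ea⟩ := exists_content h hr hn B ha ha0
  obtain ⟨κ', hκ', hκ0', b0, hb0', hnb, eb⟩ := exists_content h hr hn B hb hb0
  refine ⟨κ - κ', B.Γ.sub_mem hκ hκ', a0, ha0', b0, hb0', hna, hnb, ?_⟩
  have h1 : B.χ κ = B.χ κ' * B.χ (κ - κ') := by
    rw [← B.χ_add _ hκ' _ (B.Γ.sub_mem hκ hκ'), add_sub_cancel]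
  have h2 : b0 ≠ 0 := ne_zero_of_not_hi h hr hnb
  have h3 := B.χ_ne _ hκ'
  rw [e, ea, eb, h1]
  field_simp

theorem Ct.add (h : CtxR k v n r) (hr : 0 < r) (hn : n = r + D) [Infinite k]
    {B : FR k v D} {f f' : Ω} {κ κ' κ'' : ℝ} (h1 : Ct B f κ) (h2 : Ct B f' κ')
    (h3 : Ct B (f + f') κ'') : min κ κ' ≤ κ'' := by
  have hne := h3.ne_zero h hr
  obtain ⟨hκ, a, ha, b, hb, ha0, hb0, e⟩ := h1
  obtain ⟨hκ', a', ha', b', hb', ha0', hb0', e'⟩ := h2
  have hb1 := ne_zero_of_not_hi h hr hb0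
  have hb1' := ne_zero_of_not_hi h hr hb0'
  set m := min κ κ' with hm
  have hmΓ : m ∈ B.Γ := by
    rcases min_choice κ κ' with h4 | h4
    · rw [hm, h4]; exact hκ
    · rw [hm, h4]; exact hκ'
  have h5 : B.χ κ = B.χ m * B.χ (κ - m) := by
    rw [← B.χ_add _ hmΓ _ (B.Γ.sub_mem hκ hmΓ), add_sub_cancel]
  have h6 : B.χ κ' = B.χ m * B.χ (κ' - m) := by
    rw [← B.χ_add _ hmΓ _ (B.Γ.sub_mem hκ' hmΓ), add_sub_cancel]
  have h7 : B.χ (κ - m) ∈ B.R := B.χ_mem _ (B.Γ.sub_mem hκ hmΓ) (by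
    have := min_le_left κ κ'
    linarith)
  have h8 : B.χ (κ' - m) ∈ B.R := B.χ_mem _ (B.Γ.sub_mem hκ' hmΓ) (by
    have := min_le_right κ κ'
    linarith)
  set c := B.χ (κ - m) * (a * b') + B.χ (κ' - m) * (a' * b) with hc
  have hcR : c ∈ B.R := B.R.add_mem (B.R.mul_mem h7 (B.R.mul_mem ha hb'))
    (B.R.mul_mem h8 (B.R.mul_mem ha' hb))
  have h9 : (f + f') * (b * b') = B.χ m * c := by
    rw [hc]
    linear_combination b' * e + b * e' + (a * b') * h5 + (a' * b) * h6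
  have hc0 : c ≠ 0 := by
    intro h10
    rw [h10, mul_zero] at h9
    exact mul_ne_zero hne (mul_ne_zero hb1 hb1') h9
  obtain ⟨l, hl, hl0, c0, hc0', hnc, ec⟩ := exists_content h hr hn B hcR hc0
  have h10 : Ct B (f + f') (m + l) := by
    refine ⟨B.Γ.add_mem hmΓ hl, c0, hc0', b * b', B.R.mul_mem hb hb', hnc, fun h11 => ?_, ?_⟩
    · rcases hi_prime h hr hn B hb hb' h11 with h12 | h12
      · exact hb0 h12
      · exact hb0' h12
    · rw [h9, ec, B.χ_add _ hmΓ _ hl, mul_assoc]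
  rw [h3.unique h hr hn h10]
  linarith

theorem χ_mem_frac {B : FR k v D} {K : IntermediateField k Ω} (hK : FracIs B.R K) {κ : ℝ}
    (hκ : κ ∈ B.Γ) : B.χ κ ∈ K := by
  rcases le_total 0 κ with h3 | h3
  · exact hK.1 _ (B.χ_mem _ hκ h3)
  · have h4 := hK.1 _ (B.χ_mem _ (B.Γ.neg_mem hκ) (by linarith))
    have h5 : B.χ κ * B.χ (-κ) = 1 := by
      rw [← B.χ_add _ hκ _ (B.Γ.neg_mem hκ), add_neg_cancel, fr_χ_zero B]
    have h6 : B.χ κ = (B.χ (-κ))⁻¹ := eq_inv_of_mul_eq_one_left h5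
    rw [h6]
    exact K.inv_mem h4

theorem Ct.mem (h : CtxR k v n r) (hr : 0 < r) {B : FR k v D} {K : IntermediateField k Ω}
    (hK : FracIs B.R K) {f : Ω} {κ : ℝ} (hf : Ct B f κ) : f ∈ K := by
  obtain ⟨hκ, a, ha, b, hb, ha0, hb0, e⟩ := hf
  have hb1 := ne_zero_of_not_hi h hr hb0
  have h1 : f = B.χ κ * a / b := by
    rw [← e, mul_div_cancel_right₀ _ hb1]
  rw [h1]
  exact K.div_mem (K.mul_mem (χ_mem_frac hK hκ) (hK.1 _ ha)) (hK.1 _ hb)

/-- The valuation `w` induces the content of the frame `B` on the field of fractions. -/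
structure IsCont (B : FR k v D) (w : RVal Ω) : Prop where
  ct : ∀ f κ, Ct B f κ → w f = κ

theorem exists_isCont (h : CtxR k v n r) (hr : 0 < r) (hn : n = r + D) [Infinite k]
    (B : FR k v D) {K : IntermediateField k Ω} (hK : FracIs B.R K) : ∃ w : RVal Ω, IsCont B w := by
  classical
  have hct : ∀ f : K, f ≠ 0 → ∃ κ, Ct B (f : Ω) κ := fun f hf =>
    exists_ct h hr hn B hK f.2 fun h0 => hf (Subtype.ext h0)
  choose! c hc using hct
  let w0 : RVal K := ⟨c, fun x y hx hy => (hc (x * y) (mul_ne_zero hx hy)).unique h hr hn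
    ((hc x hx).mul h hr hn (hc y hy)), fun x y hx hy hxy =>
    (hc x hx).add h hr hn (hc y hy) (hc (x + y) hxy)⟩
  have halg : Algebra.IsAlgebraic K Ω := by
    refine ⟨fun g => ?_⟩
    obtain ⟨q, hq0, hq⟩ := B.alg g
    let i : B.R →ₐ[k] K := Subalgebra.inclusion (S := B.R) (T := K.toSubalgebra) fun f hf => hK.1 f hf
    have hi : Function.Injective i := Subalgebra.inclusion_injective _
    refine ⟨q.map (i : B.R →+* K), (Polynomial.map_ne_zero_iff hi).2 hq0, ?_⟩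
    rw [Polynomial.aeval_def, Polynomial.eval₂_map]
    rw [Polynomial.aeval_def] at hq
    exact hq
  obtain ⟨w, hw⟩ := exists_extVal K Ω w0
  refine ⟨w, ⟨fun f κ hf => ?_⟩⟩
  have hf0 := hf.ne_zero h hr
  have hfK : f ∈ K := hf.mem h hr hK
  have h1 := hw ⟨f, hfK⟩ fun h0 => hf0 (congrArg Subtype.val h0)
  have h2 : w f = c ⟨f, hfK⟩ := h1
  rw [h2]
  exact (hc ⟨f, hfK⟩ fun h0 => hf0 (congrArg Subtype.val h0)).unique h hr hn hf

section IsCont

variable {B : FR k v D} {w : RVal Ω} {K : IntermediateField k Ω}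

theorem IsCont.ct' (hw : IsCont B w) (h : CtxR k v n r) (hr : 0 < r) (hn : n = r + D)
    [Infinite k] (hK : FracIs B.R K) {f : Ω} (hf : f ∈ K) (hf0 : f ≠ 0) : Ct B f (w f) := by
  obtain ⟨κ, hκ⟩ := exists_ct h hr hn B hK hf hf0
  rwa [hw.ct f κ hκ]

theorem IsCont.Γ (hw : IsCont B w) (h : CtxR k v n r) (hr : 0 < r) (hn : n = r + D)
    [Infinite k] (hK : FracIs B.R K) {f : Ω} (hf : f ∈ K) (hf0 : f ≠ 0) : w f ∈ B.Γ :=
  (hw.ct' h hr hn hK hf hf0).1

theorem IsCont.χ (hw : IsCont B w) {γ : ℝ} (hγ : γ ∈ B.Γ) : w (B.χ γ) = γ :=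
  hw.ct _ _ ⟨hγ, 1, B.R.one_mem, 1, B.R.one_mem, hi_one B, hi_one B, rfl⟩

theorem IsCont.ge (hw : IsCont B w) (h : CtxR k v n r) (hr : 0 < r) (hn : n = r + D)
    [Infinite k] {f : Ω} (hf : f ∈ B.R) : w.Ge 0 f := fun hf0 => by
  obtain ⟨κ, hκ0, hκ, -⟩ := ct_of_mem h hr hn B hf hf0
  rw [hw.ct f κ hκ]
  exact hκ0

theorem IsCont.div_mem (hw : IsCont B w) (h : CtxR k v n r) (hr : 0 < r) (hn : n = r + D)
    [Infinite k] {f : Ω} (hf : f ∈ B.R) (hf0 : f ≠ 0) : f / B.χ (w f) ∈ B.R := by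
  obtain ⟨κ, -, hκ, h1⟩ := ct_of_mem h hr hn B hf hf0
  rwa [hw.ct f κ hκ]

theorem IsCont.hi_iff (hw : IsCont B w) (h : CtxR k v n r) (hr : 0 < r) (hn : n = r + D)
    [Infinite k] {f : Ω} (hf : f ∈ B.R) : Hi B f ↔ VPos w f := by
  constructor
  · rintro ⟨γ, hγ, hγ0, a, ha, rfl⟩ h0
    have ha0 := right_ne_zero_of_mul h0
    rw [w.map_mul (B.χ_ne _ hγ) ha0, hw.χ hγ]
    have := hw.ge h hr hn ha ha0
    linarith
  · intro h1
    by_cases h0 : f = 0
    · rw [h0]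
      exact Hi.zero h hr B
    obtain ⟨κ, hκ0, hκ, h2⟩ := ct_of_mem h hr hn B hf h0
    refine ⟨κ, hκ.1, ?_, _, h2, ?_⟩
    · rw [← hw.ct f κ hκ]
      exact h1 h0
    · rw [mul_div_cancel₀ _ (B.χ_ne _ hκ.1)]

/-- `R = R[1/χ] ∩ {w ≥ 0}`. -/
theorem IsCont.cut (hw : IsCont B w) (h : CtxR k v n r) (hr : 0 < r) (hn : n = r + D)
    [Infinite k] {f : Ω} {γ : ℝ} (hγ : γ ∈ B.Γ) (hf : B.χ γ * f ∈ B.R)
    (hwf : w.Ge 0 f) : f ∈ B.R := by
  by_cases h0 : f = 0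
  · rw [h0]
    exact B.R.zero_mem
  have h1 : B.χ γ * f ≠ 0 := mul_ne_zero (B.χ_ne _ hγ) h0
  obtain ⟨κ, hκ0, hκ, h2⟩ := ct_of_mem h hr hn B hf h1
  have h3 : γ + w f = κ := by
    rw [← hw.ct _ κ hκ, w.map_mul (B.χ_ne _ hγ) h0, hw.χ hγ]
  have h4 : B.χ κ = B.χ γ * B.χ (κ - γ) := by
    rw [← B.χ_add _ hγ _ (B.Γ.sub_mem hκ.1 hγ), add_sub_cancel]
  have h5 : f = B.χ (κ - γ) * (B.χ γ * f / B.χ κ) := by
    have := B.χ_ne _ hγ
    have := B.χ_ne _ (B.Γ.sub_mem hκ.1 hγ)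
    rw [h4]
    field_simp
  rw [h5]
  refine B.R.mul_mem (B.χ_mem _ (B.Γ.sub_mem hκ.1 hγ) ?_) h2
  have := hwf h0
  linarith

theorem IsCont.y (hw : IsCont B w) (h : CtxR k v n r) (hr : 0 < r) (hn : n = r + D)
    [Infinite k] (j : Fin D) : w (B.y j) = 0 :=
  hw.ct _ _ ⟨B.Γ.zero_mem, B.y j, B.y_mem j, 1, B.R.one_mem, hi_y h hr hn B j, hi_one B, by
    rw [fr_χ_zero B, mul_one, one_mul]⟩

theorem IsCont.const (hw : IsCont B w) (h : CtxR k v n r) {c : k} (hc : c ≠ 0) :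
    w (algebraMap k Ω c) = 0 := by
  refine hw.ct _ _ ⟨B.Γ.zero_mem, _, B.R.algebraMap_mem c, 1, B.R.one_mem, fun h1 => ?_,
    hi_one B, by rw [fr_χ_zero B, mul_one, one_mul]⟩
  have h2 := h1.vpos ((map_ne_zero _).2 hc)
  rw [h.triv c hc] at h2
  exact lt_irrefl _ h2

/-- Elements of the ring with content `0`. -/
theorem IsCont.eq_zero (hw : IsCont B w) {f : Ω} (hf : f ∈ B.R)
    (hf0 : ¬ Hi B f) : w f = 0 :=
  hw.ct _ _ ⟨B.Γ.zero_mem, f, hf, 1, B.R.one_mem, hf0, hi_one B, by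
    rw [fr_χ_zero B, mul_one, one_mul]⟩

theorem IsCont.not_hi (hw : IsCont B w) (h : CtxR k v n r) (hr : 0 < r) (hn : n = r + D)
    [Infinite k] {f : Ω} (hf : f ∈ B.R) (hf0 : f ≠ 0) (h1 : w f = 0) : ¬ Hi B f := by
  rw [hw.hi_iff h hr hn hf]
  intro h2
  have := h2 hf0
  linarith

/-- Finitely many elements with `w ≥ 0` have a common denominator with `w = 0`. -/
theorem IsCont.exists_den (hw : IsCont B w) (h : CtxR k v n r) (hr : 0 < r) (hn : n = r + D)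
    [Infinite k] (hK : FracIs B.R K) {ι : Type*} (s : Finset ι) (f : ι → Ω)
    (hf : ∀ i ∈ s, f i ∈ K) (hwf : ∀ i ∈ s, w.Ge 0 (f i)) :
    ∃ b ∈ B.R, ¬ Hi B b ∧ ∀ i ∈ s, f i * b ∈ B.R := by
  classical
  induction s using Finset.induction_on with
  | empty => exact ⟨1, B.R.one_mem, hi_one B, by simp⟩
  | insert i s hi ih =>
    obtain ⟨b, hb, hb0, h1⟩ := ih (fun j hj => hf j (Finset.mem_insert_of_mem hj))
      fun j hj => hwf j (Finset.mem_insert_of_mem hj)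
    obtain ⟨b', hb', hb0', h2⟩ : ∃ b ∈ B.R, ¬ Hi B b ∧ f i * b ∈ B.R := by
      by_cases h0 : f i = 0
      · exact ⟨1, B.R.one_mem, hi_one B, by rw [h0, zero_mul]; exact B.R.zero_mem⟩
      obtain ⟨hκ, a, ha, b, hb, ha0, hb0, e⟩ :=
        hw.ct' h hr hn hK (hf i (Finset.mem_insert_self _ _)) h0
      refine ⟨b, hb, hb0, ?_⟩
      rw [e]
      exact B.R.mul_mem (B.χ_mem _ hκ (hwf i (Finset.mem_insert_self _ _) h0)) ha
    refine ⟨b * b', B.R.mul_mem hb hb', fun h3 => ?_, fun j hj => ?_⟩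
    · rcases hi_prime h hr hn B hb hb' h3 with h4 | h4
      · exact hb0 h4
      · exact hb0' h4
    · rcases Finset.mem_insert.1 hj with rfl | hj
      · rw [show f j * (b * b') = f j * b' * b by ring]
        exact B.R.mul_mem h2 hb
      · rw [← mul_assoc]
        exact B.R.mul_mem (h1 j hj) hb'

/-- The content of a bigger frame with the same parameters. -/
theorem IsCont.of_same {B₁ : FR k v D} (hw : IsCont B₁ w) (h : CtxR k v n r) (hr : 0 < r)
    (hn : n = r + D) [Infinite k] (hs : B.Same B₁) : IsCont B w := by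
  have hΓ : ∀ γ ∈ B.Γ, γ ∈ B₁.Γ := fun γ hγ => by rw [hs.Γ_eq]; exact hγ
  have hHi : ∀ a, Hi B a → Hi B₁ a := by
    rintro a ⟨γ, hγ, hγ0, b, hb, rfl⟩
    exact ⟨γ, hΓ γ hγ, hγ0, b, hs.le hb, by rw [hs.χ_eq γ hγ]⟩
  have hYI : ∀ M e, e ∈ B.YI M → e ∈ B₁.YI M := by
    intro M e he
    rw [FR.YI, hs.y_eq]
    exact mul_le_mul_right (show Subalgebra.toSubmodule B.R ≤
      Subalgebra.toSubmodule B₁.R from hs.le) _ he
  have key : ∀ a ∈ B.R, ¬ Hi B a → ¬ Hi B₁ a := by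
    intro a ha ha0
    obtain ⟨M, P, hP, hP0, e, he, z, hz, rfl⟩ := exists_ord h hr B ha ha0
    rw [← hs.y_eq]
    exact form_not_hi h hr hn B₁ P hP hP0 (hYI _ _ he) (hHi z hz)
  refine ⟨fun f κ => ?_⟩
  rintro ⟨hκ, a, ha, b, hb, ha0, hb0, e⟩
  exact hw.ct f κ ⟨hΓ _ hκ, a, hs.le ha, b, hs.le hb, key a ha ha0, key b hb hb0, by
    rw [hs.χ_eq κ hκ]; exact e⟩

end IsCont

end Frame

end Pool.Agent.ALL44
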