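import Mathlib

/-!
# The leading monomial in a noetherian local ring, weights in an ordered field
-/

set_option autoImplicit false

namespace Pool.Agent.ALL44O

universe w

variable {𝕂 : Type w} [Field 𝕂] [LinearOrder 𝕂] [IsStrictOrderedRing 𝕂]

/-- The ideal of the monomials of weight `> c`. -/
def Agt {S : Type*} [CommRing S] {r : ℕ} (x : Fin r → S) (w : Fin r → 𝕂) (c : 𝕂) : Ideal S :=
  Ideal.span {z | ∃ b : Fin r → ℕ, c < ∑ i, (b i : 𝕂) * w i ∧ z = ∏ i, x i ^ b i}

theorem eq_of_weight {r : ℕ} (w : Fin r → 𝕂) (hw : LinearIndependent ℚ w) {a b : Fin r → ℕ}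
    (h : ∑ i, (a i : 𝕂) * w i = ∑ i, (b i : 𝕂) * w i) : a = b := by
  have h1 : ∑ i, ((a i : ℚ) - (b i : ℚ)) • w i = 0 := by
    have h2 : ∀ i, ((a i : ℚ) - (b i : ℚ)) • w i = (a i : 𝕂) * w i - (b i : 𝕂) * w i := by
      intro i
      rw [Rat.smul_def]
      push_cast
      ring
    rw [Finset.sum_congr rfl fun i _ => h2 i, Finset.sum_sub_distrib, h, sub_self]
  have h3 := Fintype.linearIndependent_iff.1 hw _ h1
  funext i
  have h4 := h3 i
  have h5 : (a i : ℚ) = b i := by linarith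
  exact_mod_cast h5

theorem weight_mono {r : ℕ} (w : Fin r → 𝕂) (hw : ∀ i, 0 < w i) :
    Monotone fun b : Fin r → ℕ => ∑ i, (b i : 𝕂) * w i := by
  intro a b hab
  refine Finset.sum_le_sum fun i _ => mul_le_mul_of_nonneg_right ?_ (hw i).le
  exact_mod_cast hab i

/-- The least weight with a property. -/
theorem exists_min {r : ℕ} (w : Fin r → 𝕂) (hw : ∀ i, 0 < w i) (P : (Fin r → ℕ) → Prop)
    (hP : ∃ a, P a) : ∃ a, P a ∧ ∀ b, ∑ i, (b i : 𝕂) * w i < ∑ i, (a i : 𝕂) * w i → ¬ P b := by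
  have h1 : ({a | P a} : Set (Fin r → ℕ)).IsPWO := Set.isPWO_of_wellQuasiOrderedLE _
  have h2 : ((fun b : Fin r → ℕ => ∑ i, (b i : 𝕂) * w i) '' {a | P a}).IsPWO :=
    h1.image_of_monotone (weight_mono w hw)
  have h3 := h2.isWF
  have hne : ((fun b : Fin r → ℕ => ∑ i, (b i : 𝕂) * w i) '' {a | P a}).Nonempty := by
    obtain ⟨a, ha⟩ := hP
    exact ⟨_, a, ha, rfl⟩
  obtain ⟨a, ha, hmin⟩ := h3.min_mem hne
  refine ⟨a, ha, fun b hb hPb => ?_⟩
  have h4 := h3.min_le hne ⟨b, hPb, rfl⟩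
  change ∑ i, (a i : 𝕂) * w i = _ at hmin
  rw [← hmin] at h4
  exact absurd hb (not_lt.2 h4)

/-- Ideals are closed. -/
theorem mem_of_forall_pow {S : Type*} [CommRing S] [IsNoetherianRing S] [IsLocalRing S]
    (I : Ideal S) {f : S} (h : ∀ M, f ∈ I ⊔ IsLocalRing.maximalIdeal S ^ M) : f ∈ I := by
  by_cases hI : I = ⊤
  · rw [hI]
    trivial
  have : Nontrivial (S ⧸ I) := Ideal.Quotient.nontrivial_iff.2 hI
  have : IsLocalRing (S ⧸ I) := IsLocalRing.of_surjective' (Ideal.Quotient.mk I)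
    Ideal.Quotient.mk_surjective
  have hle : (IsLocalRing.maximalIdeal S).map (Ideal.Quotient.mk I) ≤
      IsLocalRing.maximalIdeal (S ⧸ I) := by
    rw [Ideal.map_le_iff_le_comap]
    intro z hz
    rw [Ideal.mem_comap, IsLocalRing.mem_maximalIdeal, mem_nonunits_iff]
    intro hu
    obtain ⟨b', hb'⟩ := hu.exists_right_inv
    obtain ⟨b', rfl⟩ := Ideal.Quotient.mk_surjective b'
    rw [← map_mul, ← map_one (Ideal.Quotient.mk I), Ideal.Quotient.eq] at hb'
    have h4 := (IsLocalRing.maximalIdeal S).sub_mem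
      ((IsLocalRing.maximalIdeal S).mul_mem_right b' hz) (IsLocalRing.le_maximalIdeal hI hb')
    rw [sub_sub_cancel] at h4
    exact (IsLocalRing.maximalIdeal.isMaximal S).ne_top ((Ideal.eq_top_iff_one _).2 h4)
  have h1 : Ideal.Quotient.mk I f ∈ (⨅ i : ℕ, IsLocalRing.maximalIdeal (S ⧸ I) ^ i) := by
    rw [Ideal.mem_iInf]
    intro M
    obtain ⟨a, ha, b, hb, hab⟩ := Submodule.mem_sup.1 (h M)
    rw [← hab, map_add, Ideal.Quotient.eq_zero_iff_mem.2 ha, zero_add]
    have h3 := Ideal.mem_map_of_mem (Ideal.Quotient.mk I) hb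
    rw [Ideal.map_pow] at h3
    exact Ideal.pow_right_mono hle M h3
  rw [Ideal.iInf_pow_eq_bot_of_isLocalRing _ (IsLocalRing.maximalIdeal.isMaximal _).ne_top,
    Ideal.mem_bot, Ideal.Quotient.eq_zero_iff_mem] at h1
  exact h1

/-- The leading monomial in a local noetherian ring. -/
theorem leading {S : Type*} [CommRing S] [IsNoetherianRing S] [IsLocalRing S] {r : ℕ}
    (x : Fin r → S) (hx : ∀ i, x i ∈ IsLocalRing.maximalIdeal S)
    (w : Fin r → 𝕂) (hw : ∀ i, 0 < w i) (hind : LinearIndependent ℚ w) (f : S) (hf : f ≠ 0) :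
    ∃ (a : Fin r → ℕ) (f0 : S), f0 ∉ Ideal.span (Set.range x) ∧
      f - (∏ i, x i ^ a i) * f0 ∈ Agt x w (∑ i, (a i : 𝕂) * w i) := by
  classical
  have hpow : ∀ (M : ℕ) (b : Fin r → ℕ), M ≤ ∑ i, b i →
      ∏ i, x i ^ b i ∈ IsLocalRing.maximalIdeal S ^ M := by
    intro M b hb
    apply Ideal.pow_le_pow_right hb
    rw [← Finset.prod_pow_eq_pow_sum]
    exact Ideal.prod_mem_prod fun i _ => Ideal.pow_mem_pow (hx i) _
  have hmono : ∀ b : Fin r → ℕ, ∀ c : 𝕂, c < ∑ i, (b i : 𝕂) * w i →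
      ∏ i, x i ^ b i ∈ Agt x w c := fun b c hb => Ideal.subset_span ⟨b, hb, rfl⟩
  -- the least weight `a` with `f ∉ Agt a`
  obtain ⟨a, ha, hamin⟩ := exists_min w hw (fun a => f ∉ Agt x w (∑ i, (a i : 𝕂) * w i)) (by
    have h1 : f ∉ (⨅ i : ℕ, IsLocalRing.maximalIdeal S ^ i) := by
      rw [Ideal.iInf_pow_eq_bot_of_isLocalRing _ (IsLocalRing.maximalIdeal.isMaximal S).ne_top,
        Ideal.mem_bot]
      exact hf
    rw [Ideal.mem_iInf] at h1
    push Not at h1
    obtain ⟨M, hM⟩ := h1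
    refine ⟨fun _ => M, fun h => hM ?_⟩
    refine (?_ : Agt x w _ ≤ _) h
    rw [Agt, Ideal.span_le]
    rintro _ ⟨b, hb, rfl⟩
    refine hpow M b ?_
    by_contra hcon
    push Not at hcon
    have h2 : ∑ i, (b i : 𝕂) * w i ≤ ∑ i, (M : 𝕂) * w i := by
      refine Finset.sum_le_sum fun i _ => mul_le_mul_of_nonneg_right ?_ (hw i).le
      have h3 : b i ≤ M := (Finset.single_le_sum (fun j _ => Nat.zero_le (b j))
        (Finset.mem_univ i)).trans hcon.le
      exact_mod_cast h3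
    exact absurd hb (not_lt.2 h2))
  have hamin' : ∀ b : Fin r → ℕ, ∑ i, (b i : 𝕂) * w i < ∑ i, (a i : 𝕂) * w i →
      f ∈ Agt x w (∑ i, (b i : 𝕂) * w i) := fun b hb => not_not.1 (hamin b hb)
  -- `f ∈ (x^a) + Agt a`
  have hfa : f ∈ Ideal.span {∏ i, x i ^ a i} ⊔ Agt x w (∑ i, (a i : 𝕂) * w i) := by
    by_cases h0 : a = 0
    · subst h0
      simp
    · have hpos : 0 < ∑ i, (a i : 𝕂) * w i := by
        obtain ⟨i, hi⟩ := Function.ne_iff.1 h0
        have h1 : (a i : 𝕂) * w i ≤ ∑ j, (a j : 𝕂) * w j :=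
          Finset.single_le_sum (f := fun j => (a j : 𝕂) * w j)
            (fun j _ => mul_nonneg (Nat.cast_nonneg _) (hw j).le) (Finset.mem_univ i)
        have h2 : (0 : 𝕂) < (a i : 𝕂) := by exact_mod_cast Nat.pos_of_ne_zero hi
        exact (mul_pos h2 (hw i)).trans_le h1
      refine mem_of_forall_pow _ fun M => ?_
      rcases Nat.eq_zero_or_pos M with rfl | hM
      · rw [pow_zero, Ideal.one_eq_top, sup_top_eq]
        trivial
      have hfin : ({b : Fin r → ℕ | ∑ i, b i < M ∧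
          ∑ i, (b i : 𝕂) * w i < ∑ i, (a i : 𝕂) * w i}).Finite := by
        apply Set.Finite.subset (Set.finite_Iic (fun _ : Fin r => M))
        rintro b ⟨hb, -⟩ i
        exact (Finset.single_le_sum (fun j _ => Nat.zero_le (b j)) (Finset.mem_univ i)).trans hb.le
      obtain ⟨b, hb, hmax⟩ := Set.exists_max_image _
        (fun b : Fin r → ℕ => ∑ i, (b i : 𝕂) * w i) hfin ⟨0, by simpa using hM, by
          simpa using hpos⟩
      refine (?_ : Agt x w (∑ i, (b i : 𝕂) * w i) ≤ _) (hamin' b hb.2)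
      rw [Agt, Ideal.span_le]
      rintro _ ⟨e, he, rfl⟩
      rcases lt_trichotomy (∑ i, (e i : 𝕂) * w i) (∑ i, (a i : 𝕂) * w i) with h1 | h1 | h1
      · refine Ideal.mem_sup_right (hpow M e ?_)
        by_contra hcon
        have h2 := hmax e ⟨not_le.1 hcon, h1⟩
        exact absurd he (not_lt.2 h2)
      · rw [eq_of_weight w hind h1]
        exact Ideal.mem_sup_left (Ideal.mem_sup_left (Ideal.mem_span_singleton_self _))
      · exact Ideal.mem_sup_left (Ideal.mem_sup_right (hmono e _ h1))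
  obtain ⟨z, hz, h, hh, hzh⟩ := Submodule.mem_sup.1 hfa
  obtain ⟨f0, rfl⟩ := Ideal.mem_span_singleton'.1 hz
  -- `x^a (x) ⊆ Agt a`
  have hJ : ∀ j ∈ Ideal.span (Set.range x),
      (∏ i, x i ^ a i) * j ∈ Agt x w (∑ i, (a i : 𝕂) * w i) := by
    intro j hj
    induction hj using Submodule.span_induction with
    | mem z hz =>
      obtain ⟨i, rfl⟩ := hz
      have h1 : (∏ j, x j ^ a j) * x i = ∏ j, x j ^ ((a + Pi.single i 1 : Fin r → ℕ) j) := by
        simp only [Pi.add_apply, pow_add, Finset.prod_mul_distrib]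
        congr 1
        rw [Finset.prod_eq_single i]
        · simp
        · intro j _ hj
          rw [Pi.single_eq_of_ne hj, pow_zero]
        · intro h; exact absurd (Finset.mem_univ i) h
      rw [h1]
      apply hmono
      have h2 : ∑ j, (((a + Pi.single i 1 : Fin r → ℕ) j : ℕ) : 𝕂) * w j =
          ∑ j, (a j : 𝕂) * w j + w i := by
        simp only [Pi.add_apply, Nat.cast_add, add_mul, Finset.sum_add_distrib]
        congr 1
        rw [Finset.sum_eq_single i]
        · simp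
        · intro j _ hj
          rw [Pi.single_eq_of_ne hj, Nat.cast_zero, zero_mul]
        · intro h; exact absurd (Finset.mem_univ i) h
      rw [h2]
      linarith [hw i]
    | zero => rw [mul_zero]; exact Ideal.zero_mem _
    | add z t _ _ hz ht => rw [mul_add]; exact Ideal.add_mem _ hz ht
    | smul c z _ hz =>
      rw [smul_eq_mul, mul_left_comm]
      exact Ideal.mul_mem_left _ _ hz
  have hf0 : f0 ∉ Ideal.span (Set.range x) := by
    intro h1
    apply ha
    rw [← hzh, mul_comm f0]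
    exact Ideal.add_mem _ (hJ f0 h1) hh
  refine ⟨a, f0, hf0, ?_⟩
  have h2 : f - (∏ i, x i ^ a i) * f0 = h := by
    rw [← hzh]; ring
  rw [h2]
  exact hh

end Pool.Agent.ALL44O
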