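import Pool.Agent.Lib.TA.Defs
import Pool.Agent.Lib.LU1_h15.Reg
import Pool.Agent.Lib.LU1_h15.Rep

/-!
# PROJECT ALL, block 0: local rings whose maximal ideal is generated by `trdeg` elements

`LR v R z`: `R` is the localisation at the centre of `v` of a finitely generated algebra, and the
finitely many elements `z i` generate its maximal ideal.  If there are `n = trdeg Ω` of them, then
no power of one of them is in the ideal generated by the others, and a nonzero form of degree `M` in
some of them is not in the ideal generated by the others and by the products of `M + 1` of them.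
-/

set_option autoImplicit false

namespace Pool.Agent.ALL44

open Pool.Agent.H15JM (RVal)
open Pool.Agent.LU1
open Pool.Agent.LU3 (Ctx0)

universe u

variable {k Ω : Type u} [Field k] [Field Ω] [Algebra k Ω] {v : RVal Ω} {n : ℕ}

/-- `R` is the localisation at the centre of `v` of a finitely generated algebra, and the elements
`z i` generate its maximal ideal. -/
structure LR (v : RVal Ω) (R : Subalgebra k Ω) {ι : Type} [Fintype ι] (z : ι → Ω) : Prop where
  fgen : ∃ F : Finset Ω, R = locv v (Algebra.adjoin k (F : Set Ω))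
  nonneg : ∀ f ∈ R, v.Ge 0 f
  mem : ∀ i, z i ∈ R
  pos : ∀ i, VPos v (z i)
  gen : ∀ f ∈ R, VPos v f → ∃ a : ι → Ω, (∀ i, a i ∈ R) ∧ f = ∑ i, z i * a i
  alg : ∀ g : Ω, IsAlgebraic R g

section LR

variable {R : Subalgebra k Ω} {ι : Type} [Fintype ι] {z : ι → Ω}

theorem ge_const (h : Ctx0 k v n) (c : k) : v.Ge 0 (algebraMap k Ω c) := by
  intro h0
  have : c ≠ 0 := by rintro rfl; simp at h0
  rw [h.triv c this]

theorem residue (h : Ctx0 k v n) {f : Ω} (hf : v.Ge 0 f) :
    ∃ c : k, VPos v (f - algebraMap k Ω c) := by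
  by_cases h0 : f = 0
  · exact ⟨0, by rw [h0, map_zero, sub_zero]; exact VPos.zero⟩
  rcases (hf h0).lt_or_eq with h1 | h1
  · exact ⟨0, by rw [map_zero, sub_zero]; exact fun _ => h1⟩
  · obtain ⟨c, -, hc⟩ := h.res f h0 h1.symm
    exact ⟨c, hc⟩

theorem const_eq_zero (h : Ctx0 k v n) {c : k} (hc : VPos v (algebraMap k Ω c)) : c = 0 := by
  by_contra h0
  have h1 : algebraMap k Ω c ≠ 0 := by rwa [Ne, FaithfulSMul.algebraMap_eq_zero_iff]
  have h2 := hc h1
  rw [h.triv c h0] at h2
  exact lt_irrefl _ h2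

theorem LR.inv_mem (L : LR v R z) {f : Ω} (hf : f ∈ R) (h0 : f ≠ 0) (h1 : v f = 0) :
    f⁻¹ ∈ R := by
  obtain ⟨F, hF⟩ := L.fgen
  rw [hF] at hf ⊢
  exact locv_inv hf h0 h1

theorem LR.isUnit_of (L : LR v R z) (t : R) (h0 : (t : Ω) ≠ 0) (h1 : v (t : Ω) = 0) :
    IsUnit t :=
  IsUnit.of_mul_eq_one ⟨(t : Ω)⁻¹, L.inv_mem t.2 h0 h1⟩ (Subtype.ext (mul_inv_cancel₀ h0))

theorem LR.vpos_of_not_isUnit (L : LR v R z) (t : R) (ht : ¬ IsUnit t) : VPos v (t : Ω) := by
  intro h0
  rcases (L.nonneg t t.2 h0).lt_or_eq with h1 | h1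
  · exact h1
  · exact absurd (L.isUnit_of t h0 h1.symm) ht

theorem LR.not_isUnit_of_vpos (L : LR v R z) (t : R) (ht : VPos v (t : Ω)) : ¬ IsUnit t := by
  rintro ⟨u, rfl⟩
  have h1 : ((u : R) : Ω) * ((u⁻¹ : Rˣ) : R) = 1 := by
    rw [← Subalgebra.coe_mul, Units.mul_inv, Subalgebra.coe_one]
  have h2 : ((u : R) : Ω) ≠ 0 := left_ne_zero_of_mul (h1 ▸ one_ne_zero)
  have h3 : (((u⁻¹ : Rˣ) : R) : Ω) ≠ 0 := right_ne_zero_of_mul (h1 ▸ one_ne_zero)
  have h4 := v.map_mul h2 h3
  rw [h1, v.map_one] at h4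
  have h5 := ht h2
  have h6 := L.nonneg _ ((u⁻¹ : Rˣ) : R).2 h3
  linarith

theorem LR.isLocalRing (L : LR v R z) : IsLocalRing R := by
  refine IsLocalRing.of_nonunits_add fun a b ha hb => ?_
  apply L.not_isUnit_of_vpos
  rw [Subalgebra.coe_add]
  exact (L.vpos_of_not_isUnit a ha).add (L.vpos_of_not_isUnit b hb)

theorem LR.isNoetherian (L : LR v R z) : IsNoetherianRing R := by
  obtain ⟨F, hF⟩ := L.fgen
  rw [hF]
  exact locv_isNoetherian _ ⟨F, rfl⟩

theorem LR.mem_nonunits (L : LR v R z) (t : R) : ¬ IsUnit t ↔ VPos v (t : Ω) :=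
  ⟨L.vpos_of_not_isUnit t, L.not_isUnit_of_vpos t⟩

/-- The parameters in `R`. -/
def LR.par (L : LR v R z) (i : ι) : R := ⟨z i, L.mem i⟩

theorem LR.mem_span_par (L : LR v R z) {t : R} (ht : VPos v (t : Ω)) :
    t ∈ Ideal.span (Set.range L.par) := by
  obtain ⟨a, ha, hab⟩ := L.gen t t.2 ht
  have h1 : t = ∑ i, L.par i * ⟨a i, ha i⟩ := by
    apply Subtype.ext
    rw [hab]
    push_cast
    rfl
  rw [h1]
  exact Ideal.sum_mem _ fun i _ => Ideal.mul_mem_right _ _ (Ideal.subset_span ⟨i, rfl⟩)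

theorem LR.maximalIdeal_eq (L : LR v R z) [IsLocalRing R] :
    IsLocalRing.maximalIdeal R = Ideal.span (Set.range L.par) := by
  apply le_antisymm
  · intro t ht
    rw [IsLocalRing.mem_maximalIdeal, mem_nonunits_iff, L.mem_nonunits] at ht
    exact L.mem_span_par ht
  · rw [Ideal.span_le]
    rintro _ ⟨i, rfl⟩
    rw [SetLike.mem_coe, IsLocalRing.mem_maximalIdeal, mem_nonunits_iff, L.mem_nonunits]
    exact L.pos i

theorem LR.dim_ge (h : Ctx0 k v n) (L : LR v R z) :
    (n : WithBot ℕ∞) ≤ ringKrullDim R := by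
  obtain ⟨F, hF⟩ := L.fgen
  let A : Subalgebra k Ω := Algebra.adjoin k (F : Set Ω)
  have hle : A ≤ R := by
    rw [hF]
    exact le_locv A
  have hA0 : ∀ a ∈ A, v.Ge 0 a := fun a ha => L.nonneg a (hle ha)
  let _ : Algebra A R := (Subalgebra.inclusion hle).toRingHom.toAlgebra
  let p : Ideal A :=
    { carrier := {a | VPos v (a : Ω)}
      add_mem' := fun {a b} ha hb => by
        have := VPos.add ha hb
        exact this
      zero_mem' := VPos.zero
      smul_mem' := fun c a ha => by
        have := VPos.mul' (hA0 c c.2) ha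
        exact this }
  have hmem : ∀ a : A, a ∈ p ↔ VPos v (a : Ω) := fun a => Iff.rfl
  have h1p : (1 : A) ∉ p := by
    intro h1
    have h2 := ((hmem 1).1 h1) one_ne_zero
    have h3 : v ((1 : A) : Ω) = 0 := v.map_one
    rw [h3] at h2
    exact lt_irrefl _ h2
  have hp : p.IsMaximal := by
    rw [Ideal.isMaximal_iff]
    refine ⟨h1p, fun J x hJ hx hxJ => ?_⟩
    obtain ⟨c, hc⟩ := residue h (hA0 x x.2)
    have hxc : x - algebraMap k A c ∈ p := hc
    have hc0 : c ≠ 0 := by
      rintro rfl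
      rw [_root_.map_zero, sub_zero] at hxc
      exact hx hxc
    have h2 : algebraMap k A c ∈ J := by
      have h3 := J.sub_mem hxJ (hJ hxc)
      rwa [sub_sub_cancel] at h3
    have h4 := J.mul_mem_left (algebraMap k A c⁻¹) h2
    rwa [← _root_.map_mul, inv_mul_cancel₀ hc0, _root_.map_one] at h4
  have hpr : p.IsPrime := hp.isPrime
  have hloc : IsLocalization.AtPrime R p := by
    rw [IsLocalization.AtPrime, isLocalization_iff]
    refine ⟨?_, ?_, ?_⟩
    · rintro ⟨y, hy⟩
      have hy0 : (y : Ω) ≠ 0 := by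
        intro h0
        apply hy
        rw [SetLike.mem_coe, hmem, h0]
        exact VPos.zero
      have hyv : v (y : Ω) = 0 := by
        by_contra h1
        apply hy
        rw [SetLike.mem_coe, hmem]
        intro _
        exact lt_of_le_of_ne (hA0 y y.2 hy0) (Ne.symm h1)
      have hinv : (y : Ω)⁻¹ ∈ R := by
        rw [hF]
        exact locv_inv (le_locv A y.2) hy0 hyv
      refine IsUnit.of_mul_eq_one ⟨(y : Ω)⁻¹, hinv⟩ ?_
      apply Subtype.ext
      exact mul_inv_cancel₀ hy0
    · rintro ⟨z, hzR⟩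
      have hz : z ∈ locv v A := by
        rw [← hF]
        exact hzR
      obtain ⟨a, ha, b, hb, hb0, hvb, hab⟩ := hz
      refine ⟨(⟨a, ha⟩, ⟨⟨b, hb⟩, ?_⟩), ?_⟩
      · intro h1
        have h2 := ((hmem _).1 h1) hb0
        change 0 < v b at h2
        rw [hvb] at h2
        exact lt_irrefl _ h2
      · apply Subtype.ext
        change z * b = a
        rw [hab, div_mul_cancel₀ _ hb0]
    · intro x y hxy
      refine ⟨1, ?_⟩
      have h1 : (x : Ω) = y := congrArg (fun t : R => (t : Ω)) hxy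
      rw [Subtype.ext h1]
  have hft : Algebra.FiniteType k A := (Subalgebra.fg_iff_finiteType _).1 ⟨F, rfl⟩
  have htow : IsScalarTower A R Ω := IsScalarTower.of_algebraMap_eq fun _ => rfl
  have halg1 : Algebra.IsAlgebraic A R := IsLocalization.isAlgebraic R p.primeCompl
  have halg2 : Algebra.IsAlgebraic R Ω := ⟨L.alg⟩
  have halg : Algebra.IsAlgebraic A Ω := Algebra.IsAlgebraic.trans A R Ω
  have h1 := RegAux.le_height (A := A) n h.trdeg p hp
  rw [IsLocalization.AtPrime.ringKrullDim_eq_height p R]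
  exact_mod_cast h1

/-- No power of one of `n` parameters is in the ideal generated by the others. -/
theorem LR.reg_pow (h : Ctx0 k v n) (L : LR v R z) (hn : Fintype.card ι = n) (i₀ : ι) (s : ℕ)
    {J : Ideal R} (hJ : J ≤ Ideal.span {t : R | ∃ i, i ≠ i₀ ∧ (t : Ω) = z i}) :
    L.par i₀ ^ s ∉ J := by
  classical
  intro hmem
  have h1 := L.isNoetherian
  have h2 := L.isLocalRing
  let S : Finset R := (Finset.univ.erase i₀).image L.par
  have hS : Ideal.span {t : R | ∃ i, i ≠ i₀ ∧ (t : Ω) = z i} = Ideal.span (S : Set R) := by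
    congr 1
    ext t
    constructor
    · rintro ⟨i, hi, ht⟩
      exact Finset.mem_coe.2 (Finset.mem_image.2 ⟨i, by simp [hi], Subtype.ext ht.symm⟩)
    · intro ht
      obtain ⟨i, hi, rfl⟩ := Finset.mem_image.1 (Finset.mem_coe.1 ht)
      exact ⟨i, Finset.ne_of_mem_erase hi, rfl⟩
  have hyJ : L.par i₀ ^ s ∈ Ideal.span (S : Set R) := hS ▸ hJ hmem
  have hmin : IsLocalRing.maximalIdeal R ∈ (Ideal.span (S : Set R)).minimalPrimes := by
    refine ⟨⟨(IsLocalRing.maximalIdeal.isMaximal R).isPrime, ?_⟩, ?_⟩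
    · rw [L.maximalIdeal_eq]
      apply Ideal.span_mono
      intro t ht
      obtain ⟨i, -, rfl⟩ := Finset.mem_image.1 (Finset.mem_coe.1 ht)
      exact ⟨i, rfl⟩
    · rintro q ⟨hq, hJq⟩ _
      rw [L.maximalIdeal_eq, Ideal.span_le]
      rintro _ ⟨i, rfl⟩
      by_cases hi : i = i₀
      · rw [hi]
        exact hq.mem_of_pow_mem s (hJq hyJ)
      · exact hJq (Ideal.subset_span (Finset.mem_coe.2
          (Finset.mem_image_of_mem _ (Finset.mem_erase.2 ⟨hi, Finset.mem_univ i⟩))))
  have h3 := Ideal.height_le_card_of_mem_minimalPrimes_span_finset hmin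
  have h4 : S.card ≤ n - 1 := by
    refine Finset.card_image_le.trans ?_
    rw [Finset.card_erase_of_mem (Finset.mem_univ _), Finset.card_univ, hn]
  have h5 : ((IsLocalRing.maximalIdeal R).height : WithBot ℕ∞) = ringKrullDim R :=
    IsLocalRing.maximalIdeal_height_eq_ringKrullDim
  have h6 : (n : ℕ∞) ≤ (IsLocalRing.maximalIdeal R).height := by
    have h7 : (n : WithBot ℕ∞) ≤ ((IsLocalRing.maximalIdeal R).height : WithBot ℕ∞) := by
      rw [h5]
      exact L.dim_ge h
    exact_mod_cast h7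
  have h8 : (n : ℕ∞) ≤ S.card := h6.trans h3
  have h9 : n ≤ S.card := by exact_mod_cast h8
  have h10 : 0 < n := by
    rw [← hn]
    exact Fintype.card_pos_iff.2 ⟨i₀⟩
  omega

end LR

/-! ### Forms -/

section Form

/-- A form in multiples of one element. -/
theorem aeval_smul_form {σ : Type*} [Fintype σ] {A : Type*} [CommRing A] [Algebra k A] {M : ℕ}
    (P : MvPolynomial σ k) (hP : P.IsHomogeneous M) (a : σ → k) (τ : A) :
    MvPolynomial.aeval (fun j => a j • τ) P = MvPolynomial.eval a P • τ ^ M := by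
  classical
  rw [MvPolynomial.aeval_def, MvPolynomial.eval₂_eq', MvPolynomial.eval_eq', Finset.sum_smul]
  refine Finset.sum_congr rfl fun d hd => ?_
  have h1 : ∑ i, d i = M := by
    have h2 := hP (MvPolynomial.mem_support_iff.1 hd)
    rw [Finsupp.weight_apply, Finsupp.sum_fintype _ _ (fun _ => by simp)] at h2
    simpa using h2
  have h3 : ∏ i, (a i • τ) ^ d i = (∏ i, a i ^ d i) • τ ^ M := by
    simp only [smul_pow]
    rw [Finset.prod_smul, Finset.prod_pow_eq_pow_sum, h1]
  rw [h3, mul_smul, Algebra.smul_def, Algebra.smul_def]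

variable {R : Subalgebra k Ω} {ι : Type} [Fintype ι] {D : ℕ} {x : ι → Ω} {y : Fin D → Ω}

theorem LR.form (h : Ctx0 k v n) [Infinite k] (L : LR v R (Sum.elim x y))
    (hn : Fintype.card ι + D = n) {M : ℕ} (P : MvPolynomial (Fin D) k) (hP : P.IsHomogeneous M)
    (hP0 : P ≠ 0) :
    MvPolynomial.aeval (fun j => L.par (Sum.inr j)) P ∉
      Ideal.span {t : R | ∃ i, (t : Ω) = x i} ⊔
        Ideal.span {t : R | ∃ j, (t : Ω) = y j} ^ (M + 1) := by
  classical
  intro hmem
  have hloc := L.isLocalRing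
  obtain ⟨c, hc⟩ : ∃ c : Fin D → k, MvPolynomial.eval c P ≠ 0 := by
    by_contra hcon
    push Not at hcon
    exact hP0 (MvPolynomial.funext fun c => by rw [hcon c, map_zero])
  set yR : Fin D → R := fun j => L.par (Sum.inr j) with hyR
  -- the ideal is in the maximal ideal
  have hmax : ∀ t ∈ Ideal.span {t : R | ∃ i, (t : Ω) = x i} ⊔
        Ideal.span {t : R | ∃ j, (t : Ω) = y j} ^ (M + 1), VPos v (t : Ω) := by
    intro t ht
    have h1 : Ideal.span {t : R | ∃ i, (t : Ω) = x i} ⊔
        Ideal.span {t : R | ∃ j, (t : Ω) = y j} ^ (M + 1) ≤ IsLocalRing.maximalIdeal R := by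
      refine sup_le (Ideal.span_le.2 ?_) ((Ideal.pow_le_self (Nat.succ_ne_zero M)).trans
        (Ideal.span_le.2 ?_))
      · rintro t ⟨i, hi⟩
        rw [SetLike.mem_coe, IsLocalRing.mem_maximalIdeal, mem_nonunits_iff, L.mem_nonunits, hi]
        exact L.pos (Sum.inl i)
      · rintro t ⟨i, hi⟩
        rw [SetLike.mem_coe, IsLocalRing.mem_maximalIdeal, mem_nonunits_iff, L.mem_nonunits, hi]
        exact L.pos (Sum.inr i)
    have h2 := h1 ht
    rw [IsLocalRing.mem_maximalIdeal, mem_nonunits_iff, L.mem_nonunits] at h2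
    exact h2
  by_cases hM : M = 0
  · subst hM
    have h1 : P = MvPolynomial.C (MvPolynomial.coeff 0 P) :=
      MvPolynomial.totalDegree_eq_zero_iff_eq_C.1 (Nat.le_zero.1 hP.totalDegree_le)
    have h2 := hmax _ hmem
    rw [h1, MvPolynomial.aeval_C] at h2
    have h3 : ((algebraMap k R (MvPolynomial.coeff 0 P) : R) : Ω) =
        algebraMap k Ω (MvPolynomial.coeff 0 P) := rfl
    rw [h3] at h2
    have h4 := const_eq_zero h h2
    rw [h4, map_zero] at h1
    exact hP0 h1
  obtain ⟨j₀, hj₀⟩ : ∃ j, c j ≠ 0 := by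
    by_contra hcon
    push Not at hcon
    apply hc
    have h1 : c = 0 := funext hcon
    rw [h1]
    have h2 := hP.totalDegree hP0
    rw [MvPolynomial.eval_eq']
    refine Finset.sum_eq_zero fun d hd => ?_
    have h3 : ∑ i, d i = M := by
      have h4 := hP (MvPolynomial.mem_support_iff.1 hd)
      rw [Finsupp.weight_apply, Finsupp.sum_fintype _ _ (fun _ => by simp)] at h4
      simpa using h4
    obtain ⟨i, -, hi⟩ : ∃ i ∈ Finset.univ, d i ≠ 0 := by
      apply Finset.exists_ne_zero_of_sum_ne_zero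
      rw [h3]
      exact hM
    rw [Finset.prod_eq_zero (Finset.mem_univ i), mul_zero]
    simp [hi]
  let a : Fin D → k := fun j => c j / c j₀
  have haj : a j₀ = 1 := div_self hj₀
  have hPa : MvPolynomial.eval a P ≠ 0 := by
    have h1 : MvPolynomial.aeval (fun j => c j • (c j₀)⁻¹) P = MvPolynomial.eval c P • (c j₀)⁻¹ ^ M :=
      aeval_smul_form P hP c (c j₀)⁻¹
    have h2 : MvPolynomial.aeval (fun j => c j • (c j₀)⁻¹) P = MvPolynomial.eval a P := by
      rw [MvPolynomial.aeval_eq_eval]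
      have h3 : (fun j => c j • (c j₀)⁻¹) = a := funext fun j => by
        simp only [a, smul_eq_mul, div_eq_mul_inv]
      rw [h3]
    rw [← h2, h1, smul_eq_mul]
    exact mul_ne_zero hc (pow_ne_zero _ (inv_ne_zero hj₀))
  -- the new parameters
  let z' : ι ⊕ Fin D → Ω := Sum.elim x fun j =>
    if j = j₀ then y j₀ else y j - algebraMap k Ω (a j) * y j₀
  have hxR : ∀ i, x i ∈ R := fun i => L.mem (Sum.inl i)
  have hyR' : ∀ j, y j ∈ R := fun j => L.mem (Sum.inr j)
  have L' : LR v R z' := by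
    refine ⟨L.fgen, L.nonneg, ?_, ?_, ?_, L.alg⟩
    · rintro (i | j)
      · exact hxR i
      · simp only [z', Sum.elim_inr]
        split_ifs with hj
        · exact hyR' j₀
        · exact R.sub_mem (hyR' j) (R.mul_mem (R.algebraMap_mem _) (hyR' j₀))
    · rintro (i | j)
      · exact L.pos (Sum.inl i)
      · simp only [z', Sum.elim_inr]
        split_ifs with hj
        · exact L.pos (Sum.inr j₀)
        · exact (show VPos v (y j) from L.pos (Sum.inr j)).sub
            (VPos.mul' (ge_const h _) (show VPos v (y j₀) from L.pos (Sum.inr j₀)))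
    · intro f hf hf0
      obtain ⟨b, hb, hfb⟩ := L.gen f hf hf0
      refine ⟨fun i => match i with
        | Sum.inl i => b (Sum.inl i)
        | Sum.inr j => if j = j₀ then ∑ l, algebraMap k Ω (a l) * b (Sum.inr l)
            else b (Sum.inr j), ?_, ?_⟩
      · rintro (i | j)
        · exact hb _
        · simp only
          split_ifs with hj
          · exact R.sum_mem fun l _ => R.mul_mem (R.algebraMap_mem _) (hb _)
          · exact hb _
      · rw [hfb, Fintype.sum_sum_type, Fintype.sum_sum_type]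
        simp only [z', Sum.elim_inl, Sum.elim_inr]
        congr 1
        rw [← Finset.add_sum_erase _ _ (Finset.mem_univ j₀), ← Finset.add_sum_erase _
          (fun j => (if j = j₀ then y j₀ else y j - algebraMap k Ω (a j) * y j₀) *
            if j = j₀ then ∑ l, algebraMap k Ω (a l) * b (Sum.inr l) else b (Sum.inr j))
          (Finset.mem_univ j₀)]
        rw [if_pos rfl, if_pos rfl]
        have h1 : ∑ j ∈ Finset.univ.erase j₀,
            ((if j = j₀ then y j₀ else y j - algebraMap k Ω (a j) * y j₀) *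
            if j = j₀ then ∑ l, algebraMap k Ω (a l) * b (Sum.inr l) else b (Sum.inr j)) =
            ∑ j ∈ Finset.univ.erase j₀, (y j * b (Sum.inr j) -
              y j₀ * (algebraMap k Ω (a j) * b (Sum.inr j))) := by
          refine Finset.sum_congr rfl fun j hj => ?_
          rw [if_neg (Finset.ne_of_mem_erase hj), if_neg (Finset.ne_of_mem_erase hj)]
          ring
        rw [h1, Finset.sum_sub_distrib, ← Finset.mul_sum,
          ← Finset.add_sum_erase _ (fun l => algebraMap k Ω (a l) * b (Sum.inr l))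
            (Finset.mem_univ j₀), haj, map_one, one_mul]
        ring
  have hcard : Fintype.card (ι ⊕ Fin D) = n := by
    rw [Fintype.card_sum, Fintype.card_fin]
    exact hn
  have hreg := L'.reg_pow h hcard (Sum.inr j₀) M le_rfl
  set J' : Ideal R := Ideal.span {t : R | ∃ i, i ≠ Sum.inr j₀ ∧ (t : Ω) = z' i} with hJ'
  have hpar : L'.par (Sum.inr j₀) = yR j₀ := by
    apply Subtype.ext
    change z' (Sum.inr j₀) = y j₀
    simp [z']
  rw [hpar] at hreg
  -- the quotient
  let π := Ideal.Quotient.mkₐ k J'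
  set τ := π (yR j₀) with hτ
  have hπx : ∀ t : R, (∃ i, (t : Ω) = x i) → π t = 0 := by
    rintro t ⟨i, hi⟩
    exact Ideal.Quotient.eq_zero_iff_mem.2 (Ideal.subset_span ⟨Sum.inl i, by simp, hi⟩)
  have hπy : ∀ j, π (yR j) = a j • τ := by
    intro j
    by_cases hj : j = j₀
    · rw [hj, haj, one_smul]
    · rw [hτ, ← map_smul, ← sub_eq_zero, ← map_sub]
      refine Ideal.Quotient.eq_zero_iff_mem.2 (Ideal.subset_span ⟨Sum.inr j, ?_, ?_⟩)
      · simp [hj]
      · simp only [z', Sum.elim_inr, if_neg hj]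
        rw [Subalgebra.coe_sub, Subalgebra.coe_smul, Algebra.smul_def]
        rfl
  have h1 : π (MvPolynomial.aeval yR P) = MvPolynomial.eval a P • τ ^ M := by
    rw [← aeval_smul_form P hP a τ]
    have h3 : (fun j => a j • τ) = fun j => π (yR j) := funext fun j => (hπy j).symm
    rw [h3]
    have h4 : (π.comp (MvPolynomial.aeval yR)) = MvPolynomial.aeval fun j => π (yR j) :=
      MvPolynomial.comp_aeval yR π
    exact DFunLike.congr_fun h4 P
  have h2 : Ideal.span {t : R | ∃ i, (t : Ω) = x i} ⊔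
      Ideal.span {t : R | ∃ j, (t : Ω) = y j} ^ (M + 1) ≤
      (Ideal.span {τ} ^ (M + 1)).comap π := by
    refine sup_le (Ideal.span_le.2 ?_) ?_
    · rintro t ht
      rw [SetLike.mem_coe, Ideal.mem_comap, hπx t ht]
      exact Ideal.zero_mem _
    · rw [← Ideal.map_le_iff_le_comap, Ideal.map_pow]
      apply Ideal.pow_right_mono
      rw [Ideal.map_le_iff_le_comap, Ideal.span_le]
      rintro t ⟨j, hj⟩
      have h3 : t = yR j := Subtype.ext hj
      rw [SetLike.mem_coe, Ideal.mem_comap, h3, hπy]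
      have h4 : a j • τ = π (algebraMap k R (a j)) * τ := by
        rw [hτ, ← map_mul, ← map_smul, Algebra.smul_def]
      rw [h4]
      exact Ideal.mul_mem_left _ _ (Ideal.mem_span_singleton_self _)
  have h3 := h2 hmem
  rw [Ideal.mem_comap, h1, Ideal.span_singleton_pow, Ideal.mem_span_singleton'] at h3
  obtain ⟨q, hq⟩ := h3
  obtain ⟨q', rfl⟩ := Ideal.Quotient.mkₐ_surjective k J' q
  -- the unit
  have hu : IsUnit (algebraMap k R (MvPolynomial.eval a P) - q' * yR j₀) := by
    by_contra hcon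
    have h4 := L.vpos_of_not_isUnit _ hcon
    have h5 : VPos v (((q' * yR j₀ : R)) : Ω) := by
      rw [Subalgebra.coe_mul]
      exact VPos.mul' (L.nonneg _ q'.2) (L.pos (Sum.inr j₀))
    have h6 := h4.add h5
    rw [← Subalgebra.coe_add, sub_add_cancel] at h6
    exact hPa (const_eq_zero h h6)
  apply hreg
  have h4 : π ((algebraMap k R (MvPolynomial.eval a P) - q' * yR j₀) * yR j₀ ^ M) = 0 := by
    rw [map_mul, map_sub, map_mul, map_pow, ← hτ, AlgHom.commutes, sub_mul, ← Algebra.smul_def,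
      ← hq, pow_succ]
    change π q' * (τ ^ M * τ) - π q' * τ * τ ^ M = 0
    ring
  have h5 := Ideal.Quotient.eq_zero_iff_mem.1 h4
  obtain ⟨u, hu⟩ := hu
  rw [← hu] at h5
  have h6 := J'.mul_mem_left (↑u⁻¹) h5
  rwa [← mul_assoc, Units.inv_mul, one_mul] at h6

end Form

end Pool.Agent.ALL44
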